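import Pool.Agent.H129.LN.MV2

/-! Realizations of simplicial complexes on `Fin N` and collapses. -/

set_option autoImplicit false

namespace Pool.Agent.H129.LN

open Pool.Agent.Helper534.HB Finsupp

/-- the realization of the complex whose faces are the sets satisfying `P` -/
abbrev R {N : ℕ} (P : Set (Fin N) → Prop) : Type :=
  {x : Fin N → ℝ // x ∈ stdSimplex ℝ (Fin N) ∧ P {i | x i ≠ 0}}

section collapse

variable {N : ℕ} (τ : Finset (Fin N)) (m : (Fin N → ℝ) → ℝ) (w : Fin N)

/-- moving mass from `τ` to the apex `w` -/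
noncomputable def hf (x : Fin N → ℝ) (t : ℝ) (i : Fin N) : ℝ :=
  x i + ((if i = w then t * m x * τ.card else 0) - (if i ∈ τ then t * m x else 0))

theorem continuous_hf (hm : Continuous m) :
    Continuous (fun p : (Fin N → ℝ) × ℝ => hf τ m w p.1 p.2) := by
  apply continuous_pi
  intro i
  unfold hf
  apply Continuous.add (by fun_prop)
  apply Continuous.sub
  · split_ifs
    · fun_prop
    · fun_prop
  · split_ifs
    · fun_prop
    · fun_prop

theorem hf_sum (x : Fin N → ℝ) (t : ℝ) : ∑ i, hf τ m w x t i = ∑ i, x i := by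
  unfold hf
  rw [Finset.sum_add_distrib, Finset.sum_sub_distrib, Finset.sum_ite_eq', Finset.sum_ite_mem]
  simp
  ring

theorem hf_nonneg (hm1 : ∀ x, ∀ i ∈ τ, m x ≤ x i) (hm0 : ∀ x, (∀ i, 0 ≤ x i) → 0 ≤ m x)
    (hw : w ∉ τ) (x : Fin N → ℝ) (hx : ∀ i, 0 ≤ x i) (t : ℝ) (ht0 : 0 ≤ t) (ht1 : t ≤ 1)
    (i : Fin N) : 0 ≤ hf τ m w x t i := by
  unfold hf
  have hm := hm0 x hx
  by_cases h1 : i = w
  · subst h1
    rw [if_pos rfl, if_neg hw, sub_zero]
    have := hx i
    positivity
  · rw [if_neg h1]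
    by_cases h2 : i ∈ τ
    · rw [if_pos h2]
      have h3 := hm1 x i h2
      nlinarith
    · rw [if_neg h2]
      have := hx i
      linarith

theorem collapse (P P' : Set (Fin N) → Prop)
    (hm : Continuous m) (hm1 : ∀ x, ∀ i ∈ τ, m x ≤ x i) (hm2 : ∀ x, ∃ i ∈ τ, m x = x i)
    (hw : w ∉ τ) (down : ∀ S T, P S → T ⊆ S → P T)
    (cone : ∀ S : Set (Fin N), P S → (∀ i ∈ τ, i ∈ S) → P (insert w S))
    (hP' : ∀ S : Set (Fin N), P' S ↔ P S ∧ ¬ ∀ i ∈ τ, i ∈ S) (n : ℕ) :
    TF (R P') n ↔ TF (R P) n := by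
  have hm0 : ∀ x : Fin N → ℝ, (∀ i, 0 ≤ x i) → 0 ≤ m x := by
    intro x hx
    obtain ⟨i, _, h⟩ := hm2 x
    rw [h]; exact hx i
  have key : ∀ (x : R P) (t : ℝ), 0 ≤ t → t ≤ 1 → P {i | hf τ m w x.1 t i ≠ 0} := by
    intro x t ht0 ht1
    by_cases h0 : m x.1 = 0
    · have : hf τ m w x.1 t = x.1 := by
        funext i
        simp [hf, h0]
      rw [this]; exact x.2.2
    · have h1 : 0 < m x.1 := lt_of_le_of_ne (hm0 x.1 x.2.1.1) (Ne.symm h0)
      refine down _ _ (cone _ x.2.2 ?_) ?_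
      · intro i hi
        have := hm1 x.1 i hi
        exact (lt_of_lt_of_le h1 this).ne'
      · intro i hi
        by_cases hiw : i = w
        · left; exact hiw
        · right
          intro h2
          apply hi
          have h3 : i ∉ τ := fun h => by
            have := hm1 x.1 i h
            rw [h2] at this; linarith
          simp [hf, hiw, h3, h2]
  have key1 : ∀ (x : R P), ¬ ∀ i ∈ τ, i ∈ {i | hf τ m w x.1 1 i ≠ 0} := by
    intro x hall
    obtain ⟨i, hi, h⟩ := hm2 x.1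
    apply hall i hi
    have hiw : i ≠ w := fun e => hw (e ▸ hi)
    simp [hf, hiw, hi, h]
  let r : C(R P, R P') := ⟨fun x => ⟨hf τ m w x.1 1, ⟨fun i => hf_nonneg τ m w hm1 hm0 hw x.1 x.2.1.1 1
    zero_le_one le_rfl i, (hf_sum τ m w x.1 1).trans x.2.1.2⟩, (hP' _).mpr
      ⟨key x 1 zero_le_one le_rfl, key1 x⟩⟩, by
    apply Continuous.subtype_mk
    exact (continuous_hf τ m w hm).comp (continuous_subtype_val.prodMk continuous_const)⟩
  let f : C(R P', R P) := ⟨fun x => ⟨x.1, x.2.1, ((hP' _).mp x.2.2).1⟩, by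
    apply Continuous.subtype_mk
    exact continuous_subtype_val⟩
  let K : C(R P × unitInterval, R P) := ⟨fun p => ⟨hf τ m w p.1.1 p.2.1,
    ⟨fun i => hf_nonneg τ m w hm1 hm0 hw p.1.1 p.1.2.1.1 _
    p.2.2.1 p.2.2.2 i, (hf_sum τ m w p.1.1 _).trans p.1.2.1.2⟩, key p.1 _ p.2.2.1 p.2.2.2⟩, by
    apply Continuous.subtype_mk
    exact (continuous_hf τ m w hm).comp ((continuous_subtype_val.comp continuous_fst).prodMk
      (continuous_subtype_val.comp continuous_snd))⟩
  apply TF_iff_of_HE (f := f)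
  refine HE_of_homotopyEquiv f r ⟨Prod.fst, continuous_fst⟩ K (fun _ => rfl) ?_ ?_ ?_
  · intro x
    apply Subtype.ext
    change x.1 = hf τ m w x.1 1
    have h := ((hP' _).mp x.2.2).2
    push Not at h
    obtain ⟨i, hi, h2⟩ := h
    have h3 : x.1 i = 0 := by simpa using h2
    have h5 := hm1 x.1 i hi
    rw [h3] at h5
    have h4 : m x.1 = 0 := le_antisymm h5 (hm0 x.1 x.2.1.1)
    funext i
    simp [hf, h4]
  · intro y
    apply Subtype.ext
    funext i
    simp [K, hf]
  · intro y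
    rfl

end collapse

/-! Graphs: `E` the adjacency relation, `W` the set of active vertices. -/

/-- independent sets of active vertices -/
def IP {N : ℕ} (E : Fin N → Fin N → Prop) (W : Fin N → Prop) (S : Set (Fin N)) : Prop :=
  (∀ i ∈ S, W i) ∧ ∀ i ∈ S, ∀ j ∈ S, ¬ E i j

theorem IP.down {N : ℕ} {E : Fin N → Fin N → Prop} {W : Fin N → Prop} {S T : Set (Fin N)}
    (h : IP E W S) (hT : T ⊆ S) : IP E W T :=
  ⟨fun i hi => h.1 i (hT hi), fun i hi j hj => h.2 i (hT hi) j (hT hj)⟩

/-- the cone condition -/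
theorem IP.insert {N : ℕ} {E : Fin N → Fin N → Prop} {W : Fin N → Prop} {S : Set (Fin N)}
    (symm : ∀ i j, E i j → E j i) (h : IP E W S) (w : Fin N) (hw : W w)
    (h0 : ¬ E w w) (hS : ∀ i ∈ S, ¬ E w i) : IP E W (insert w S) := by
  constructor
  · rintro i (rfl | hi)
    · exact hw
    · exact h.1 i hi
  · rintro i (rfl | hi) j (rfl | hj)
    · exact h0
    · exact hS j hj
    · exact fun e => hS i hi (symm _ _ e)
    · exact h.2 i hi j hj

theorem fold_step {N : ℕ} (E : Fin N → Fin N → Prop) (W W' : Fin N → Prop)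
    (symm : ∀ i j, E i j → E j i) (v w : Fin N) (hw : W w) (hvw : v ≠ w) (hE : ¬ E v w)
    (hN : ∀ s, W s → E w s → E v s) (hW' : ∀ i, W' i ↔ W i ∧ i ≠ v) (n : ℕ) :
    TF (R (IP E W')) n ↔ TF (R (IP E W)) n := by
  apply collapse {v} (fun x => x v) w
  · fun_prop
  · intro x i hi
    rw [Finset.mem_singleton] at hi
    rw [hi]
  · intro x
    exact ⟨v, Finset.mem_singleton_self v, rfl⟩
  · rw [Finset.mem_singleton]; exact fun e => hvw e.symm
  · intro S T h hT
    exact h.down hT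
  · intro S h hv
    have hv' : v ∈ S := hv v (Finset.mem_singleton_self v)
    refine h.insert symm w hw (fun e => hE (hN w hw e)) ?_
    intro i hi e
    exact h.2 v hv' i hi (hN i (h.1 i hi) e)
  · intro S
    constructor
    · rintro ⟨h1, h2⟩
      refine ⟨⟨fun i hi => ((hW' i).mp (h1 i hi)).1, h2⟩, fun h => ?_⟩
      exact ((hW' v).mp (h1 v (h v (Finset.mem_singleton_self v)))).2 rfl
    · rintro ⟨⟨h1, h2⟩, h3⟩
      refine ⟨fun i hi => (hW' i).mpr ⟨h1 i hi, ?_⟩, h2⟩
      rintro rfl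
      apply h3
      intro j hj
      rw [Finset.mem_singleton] at hj
      rwa [hj]

theorem edge_step {N : ℕ} (E E' : Fin N → Fin N → Prop) (W : Fin N → Prop)
    (symm : ∀ i j, E i j → E j i) (u v w : Fin N) (hw : W w) (huw : u ≠ w) (hvw : v ≠ w)
    (huE : ¬ E u w) (hvE : ¬ E v w) (hN : ∀ s, W s → E w s → E u s ∨ E v s)
    (hE' : ∀ i j, E' i j ↔ E i j ∨ (i = u ∧ j = v) ∨ (i = v ∧ j = u)) (n : ℕ) :
    TF (R (IP E' W)) n ↔ TF (R (IP E W)) n := by
  apply collapse {u, v} (fun x => min (x u) (x v)) w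
  · fun_prop
  · intro x i hi
    rw [Finset.mem_insert, Finset.mem_singleton] at hi
    rcases hi with rfl | rfl
    · exact min_le_left _ _
    · exact min_le_right _ _
  · intro x
    rcases min_choice (x u) (x v) with h | h
    · exact ⟨u, by simp, h⟩
    · exact ⟨v, by simp, h⟩
  · simp [Ne.symm huw, Ne.symm hvw]
  · intro S T h hT
    exact h.down hT
  · intro S h hv
    have hu' : u ∈ S := hv u (by simp)
    have hv' : v ∈ S := hv v (by simp)
    refine h.insert symm w hw (fun e => ?_) ?_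
    · rcases hN w hw e with h | h
      · exact huE h
      · exact hvE h
    · intro i hi e
      rcases hN i (h.1 i hi) e with h1 | h1
      · exact h.2 u hu' i hi h1
      · exact h.2 v hv' i hi h1
  · intro S
    constructor
    · rintro ⟨h1, h2⟩
      refine ⟨⟨h1, fun i hi j hj e => h2 i hi j hj ((hE' i j).mpr (Or.inl e))⟩, fun h => ?_⟩
      exact h2 u (h u (by simp)) v (h v (by simp)) ((hE' u v).mpr (Or.inr (Or.inl ⟨rfl, rfl⟩)))
    · rintro ⟨⟨h1, h2⟩, h3⟩
      refine ⟨h1, fun i hi j hj e => ?_⟩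
      rcases (hE' i j).mp e with e | ⟨rfl, rfl⟩ | ⟨rfl, rfl⟩
      · exact h2 i hi j hj e
      · apply h3
        intro k hk
        rw [Finset.mem_insert, Finset.mem_singleton] at hk
        rcases hk with rfl | rfl
        · exact hi
        · exact hj
      · apply h3
        intro k hk
        rw [Finset.mem_insert, Finset.mem_singleton] at hk
        rcases hk with rfl | rfl
        · exact hj
        · exact hi

end Pool.Agent.H129.LN
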