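import Pool.Agent.H129.LN.P4b

/-! Detecting 2-torsion in first homology by a certificate. -/

set_option autoImplicit false

namespace Pool.Agent.H129.LN

open Pool.Agent.Helper534.HB Finsupp

universe u

/-- formal sums -/
def ch {P M : Type*} [AddCommGroup M] (e : P → M) (L : List (ℤ × P)) : M :=
  (L.map fun t => t.1 • e t.2).sum

theorem ch_nil {P M : Type*} [AddCommGroup M] (e : P → M) : ch e [] = 0 := rfl

theorem ch_cons {P M : Type*} [AddCommGroup M] (e : P → M) (t : ℤ × P) (L : List (ℤ × P)) :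
    ch e (t :: L) = t.1 • e t.2 + ch e L := by simp [ch]

theorem ch_append {P M : Type*} [AddCommGroup M] (e : P → M) (L L' : List (ℤ × P)) :
    ch e (L ++ L') = ch e L + ch e L' := by simp [ch]

/-- insertion -/
def ins {P : Type*} [DecidableEq P] (c : ℤ) (p : P) : List (ℤ × P) → List (ℤ × P)
  | [] => [(c, p)]
  | t :: L => if p = t.2 then (c + t.1, t.2) :: L else t :: ins c p L

theorem ch_ins {P M : Type*} [DecidableEq P] [AddCommGroup M] (e : P → M) (c : ℤ) (p : P)
    (L : List (ℤ × P)) : ch e (ins c p L) = c • e p + ch e L := by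
  induction L with
  | nil => simp [ins, ch]
  | cons t L ih =>
    unfold ins
    split_ifs with h
    · rw [ch_cons, ch_cons, h, add_smul]
      abel
    · rw [ch_cons, ch_cons, ih]
      abel

/-- collecting terms -/
def nrml {P : Type*} [DecidableEq P] : List (ℤ × P) → List (ℤ × P)
  | [] => []
  | t :: L => ins t.1 t.2 (nrml L)

theorem ch_nrml {P M : Type*} [DecidableEq P] [AddCommGroup M] (e : P → M) (L : List (ℤ × P)) :
    ch e (nrml L) = ch e L := by
  induction L with
  | nil => rfl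
  | cons t L ih => rw [nrml, ch_ins, ih, ch_cons]

theorem ch_zero {P M : Type*} [AddCommGroup M] (e : P → M) (L : List (ℤ × P))
    (h : ∀ t ∈ L, t.1 = 0) : ch e L = 0 := by
  induction L with
  | nil => rfl
  | cons t L ih =>
    rw [ch_cons, h t List.mem_cons_self, zero_smul, zero_add]
    exact ih fun s hs => h s (List.mem_cons_of_mem _ hs)

theorem ch_scale {P M : Type*} [AddCommGroup M] (e : P → M) (c : ℤ) (L : List (ℤ × P)) :
    ch e (L.map fun t => (c * t.1, t.2)) = c • ch e L := by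
  induction L with
  | nil => simp [ch]
  | cons t L ih =>
    rw [List.map_cons, ch_cons, ch_cons, ih, smul_add, mul_smul]

/-- boundary of a formal sum of triangles -/
def bdL {V : Type*} : List (ℤ × V × V × V) → List (ℤ × V × V)
  | [] => []
  | t :: L => (t.1, t.2.2.1, t.2.2.2) :: (-t.1, t.2.1, t.2.2.2) :: (t.1, t.2.1, t.2.2.1) :: bdL L

section rho

variable {X : Type u} [TopologicalSpace X] (𝒞 : Set (Set X))

theorem DD_pres (A : Set X) (k : ℕ) (z : Sing X k →₀ ℤ)
    (hz : z ∈ Finsupp.supported ℤ ℤ (Sc.smallSet {A} k)) :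
    Sc.DD 𝒞 k z ∈ Finsupp.supported ℤ ℤ (Sc.smallSet {A} (k + 1)) := by
  refine Sc.supported_map _ (Sc.DD 𝒞 k) _ ?_ z hz
  intro σ hσ
  rw [Sc.DD_single]
  apply Submodule.sum_mem
  intro i _
  apply Sc.TS_small
  apply Sc.Sd_iter_small
  exact Sc.single_mem_supported' hσ

theorem rho_pres (A : Set X) (k : ℕ) (z : Sing X (k + 1) →₀ ℤ)
    (hz : z ∈ Finsupp.supported ℤ ℤ (Sc.smallSet {A} (k + 1))) :
    Sc.rho 𝒞 (k + 1) z ∈ Finsupp.supported ℤ ℤ (Sc.smallSet {A} (k + 1)) := by
  rw [Sc.rho_succ]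
  apply Submodule.sub_mem
  · apply Submodule.sub_mem _ hz
    apply Sc.sbd_small
    exact DD_pres 𝒞 A _ z hz
  · apply DD_pres
    exact Sc.sbd_small _ _ _ hz

/-- evaluation of a function on chains -/
noncomputable def ev {k : ℕ} (β : Sing X k → ZMod 2) : (Sing X k →₀ ℤ) →ₗ[ℤ] ZMod 2 :=
  linearCombination ℤ β

theorem ev_single {k : ℕ} (β : Sing X k → ZMod 2) (σ : Sing X k) : ev β (single σ 1) = β σ := by
  rw [ev, linearCombination_single, one_smul]

theorem bdry_two (τ : Sing X 2) : bdry X 1 (single τ 1) =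
    single (sface 1 0 τ) 1 - single (sface 1 1 τ) 1 + single (sface 1 2 τ) 1 := by
  simp only [bdry, LinearMap.sum_apply, LinearMap.smul_apply, lmapDomain_apply, mapDomain_single]
  refine (Fin.sum_univ_three (fun i : Fin 3 =>
    ((-1 : ℤ) ^ (i : ℕ)) • single (sface 1 i τ) (1 : ℤ))).trans ?_
  simp [sub_eq_add_neg]

theorem ev_bdry (hopen : ∀ C ∈ 𝒞, IsOpen C) (hcov : ∀ x : X, ∃ C ∈ 𝒞, x ∈ C)
    (β : Sing X 1 → ZMod 2)
    (hβ : ∀ τ ∈ Sc.smallSet 𝒞 2, β (sface 1 0 τ) - β (sface 1 1 τ) + β (sface 1 2 τ) = 0)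
    (w : Sing X 2 →₀ ℤ) : ev β (Sc.rho 𝒞 1 (bdry X 1 w)) = 0 := by
  rw [bdry_eq, ← Sc.sbd_rho]
  have := Sc.supported_map (Sc.smallSet 𝒞 2) ((ev β).comp (Sc.sbd X 1)) ⊥ (by
    intro τ hτ
    rw [Submodule.mem_bot, LinearMap.comp_apply, ← bdry_eq, bdry_two, map_add, map_sub,
      ev_single, ev_single, ev_single]
    exact hβ τ hτ) _ (Sc.rho_small 𝒞 hopen hcov 2 w)
  exact (Submodule.mem_bot ℤ).mp this

theorem ev_edge (A : Set X) (β : Sing X 1 → ZMod 2) (g : X → ZMod 2)
    (hβ : ∀ τ : Sing X 1, Set.range τ ⊆ A → β τ = g (τ (Sc.vert 1 1)) - g (τ (Sc.vert 1 0)))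
    (σ : Sing X 1) (hσ : Set.range σ ⊆ A) :
    ev β (Sc.rho 𝒞 1 (single σ 1)) = g (σ (Sc.vert 1 1)) - g (σ (Sc.vert 1 0)) := by
  let G : Sing X 0 → ZMod 2 := fun τ => g (pt τ)
  have h1 : ∀ z : Sing X 1 →₀ ℤ, z ∈ Finsupp.supported ℤ ℤ (Sc.smallSet {A} 1) →
      ev β z = ev G (bdry X 0 z) := by
    intro z hz
    have := Sc.supported_map (Sc.smallSet {A} 1) (ev β - (ev G).comp (bdry X 0)) ⊥ (by
      rintro τ ⟨B, hB, hτ⟩
      rw [Set.mem_singleton_iff] at hB
      subst hB
      rw [Submodule.mem_bot, LinearMap.sub_apply, LinearMap.comp_apply, bdry_one, map_sub,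
        ev_single, ev_single, ev_single, hβ τ hτ]
      simp [G, pt_cst]) z hz
    have h2 := (Submodule.mem_bot ℤ).mp this
    rw [LinearMap.sub_apply, LinearMap.comp_apply] at h2
    exact sub_eq_zero.mp h2
  rw [h1 _ (rho_pres 𝒞 A 0 _ (Sc.single_mem_supported' ⟨A, rfl, hσ⟩)), bdry_eq, Sc.sbd_rho]
  change ev G (Sc.sbd X 0 (single σ 1)) = _
  rw [← bdry_eq, bdry_one, map_sub, ev_single, ev_single]
  simp [G, pt_cst]

end rho

section cert

variable {N : ℕ} (E : Fin N → Fin N → Prop) (W : Fin N → Prop)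

theorem map_supp {k : ℕ} (a : Fin (k + 1) → Fin N) (t : stdSimplex ℝ (Fin (k + 1))) (i : Fin N)
    (h : (stdSimplex.map a t).1 i ≠ 0) : i ∈ Set.range a := by
  by_contra hcon
  apply h
  change (FunOnFinite.linearMap ℝ ℝ a t.1) i = 0
  rw [FunOnFinite.linearMap_apply_apply]
  apply Finset.sum_eq_zero
  intro j hj
  rw [Finset.mem_filter] at hj
  exact absurd ⟨j, hj.2⟩ hcon

/-- ordered affine simplex -/
noncomputable def sxp {k : ℕ} (a : Fin (k + 1) → Fin N) (h : IP E W (Set.range a)) :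
    Sing (R (IP E W)) k :=
  ⟨fun t => ⟨(stdSimplex.map a t).1, (stdSimplex.map a t).2, h.down fun i hi =>
    map_supp a t i hi⟩, by
    apply Continuous.subtype_mk
    exact continuous_subtype_val.comp (stdSimplex.continuous_map a)⟩

theorem sxp_face {k : ℕ} (a : Fin (k + 2) → Fin N) (h : IP E W (Set.range a)) (i : Fin (k + 2))
    (h' : IP E W (Set.range (a ∘ i.succAbove))) :
    sface k i (sxp E W a h) = sxp E W (a ∘ i.succAbove) h' := by
  ext t
  change (stdSimplex.map a (stdSimplex.map i.succAbove t)).1 _ = _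
  rw [stdSimplex.map_comp_apply]
  rfl

open Classical in
/-- ordered affine simplex, with a default value for tuples which are not faces -/
noncomputable def sx (x0 : R (IP E W)) {k : ℕ} (a : Fin (k + 1) → Fin N) : Sing (R (IP E W)) k :=
  if h : IP E W (Set.range a) then sxp E W a h else cst x0 k

theorem sx_of (x0 : R (IP E W)) {k : ℕ} (a : Fin (k + 1) → Fin N) (h : IP E W (Set.range a)) :
    sx E W x0 a = sxp E W a h := dif_pos h

theorem sxp_vert {k : ℕ} (a : Fin (k + 1) → Fin N) (h : IP E W (Set.range a)) (j : Fin (k + 1))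
    (i : Fin N) : (sxp E W a h (Sc.vert k j)).1 i = if i = a j then 1 else 0 := by
  change (FunOnFinite.linearMap ℝ ℝ a (Sc.vert k j).1) i = _
  rw [FunOnFinite.linearMap_apply_apply, Finset.sum_filter]
  rw [Finset.sum_eq_single j]
  · have : (Sc.vert k j).1 j = 1 := Sc.vert_self k j
    rw [this]
    simp only [eq_comm]
  · intro l _ hl
    have : (Sc.vert k j).1 l = 0 := Sc.vert_ne k j l hl
    rw [this, ite_self]
  · intro h; exact absurd (Finset.mem_univ j) h

theorem exists_big (x : R (IP E W)) : ∃ i, 1 / (N : ℝ) ≤ x.1 i := by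
  by_contra hcon
  push Not at hcon
  have hN : 0 < N := by
    rcases Nat.eq_zero_or_pos N with h | h
    · subst h
      have := x.2.1.2
      simp at this
    · exact h
  have : Nonempty (Fin N) := ⟨⟨0, hN⟩⟩
  have h1 : ∑ i, x.1 i < ∑ _i : Fin N, 1 / (N : ℝ) :=
    Finset.sum_lt_sum_of_nonempty Finset.univ_nonempty fun i _ => hcon i
  rw [x.2.1.2, Finset.sum_const, Finset.card_univ, Fintype.card_fin, nsmul_eq_mul] at h1
  have hN' : (N : ℝ) ≠ 0 := by positivity
  rw [mul_one_div_cancel hN'] at h1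
  exact lt_irrefl _ h1

/-- a vertex with large coordinate -/
noncomputable def bigv (x : R (IP E W)) : Fin N := Classical.choose (exists_big E W x)

theorem bigv_spec (x : R (IP E W)) : 1 / (N : ℝ) ≤ x.1 (bigv E W x) :=
  Classical.choose_spec (exists_big E W x)

theorem npos (x : R (IP E W)) : 0 < 1 / (N : ℝ) := by
  have hN : 0 < N := by
    rcases Nat.eq_zero_or_pos N with h | h
    · subst h
      have := x.2.1.2
      simp at this
    · exact h
  positivity

theorem bigv_ne (x : R (IP E W)) : x.1 (bigv E W x) ≠ 0 :=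
  (lt_of_lt_of_le (npos E W x) (bigv_spec E W x)).ne'

/-- the open cover by small boxes -/
def boxes : Set (Set (R (IP E W))) :=
  Set.range fun x0 : R (IP E W) => {y : R (IP E W) | ∀ i, y.1 i < x0.1 i + 1 / (N : ℝ)}

theorem boxes_open : ∀ C ∈ boxes E W, IsOpen C := by
  rintro _ ⟨x0, rfl⟩
  have : {y : R (IP E W) | ∀ i, y.1 i < x0.1 i + 1 / (N : ℝ)} =
      ⋂ i, {y : R (IP E W) | y.1 i < x0.1 i + 1 / (N : ℝ)} := by
    ext y; simp
  change IsOpen {y : R (IP E W) | ∀ i, y.1 i < x0.1 i + 1 / (N : ℝ)}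
  rw [this]
  apply isOpen_iInter_of_finite
  intro i
  exact isOpen_lt ((continuous_apply i).comp continuous_subtype_val) continuous_const

theorem boxes_cov : ∀ x : R (IP E W), ∃ C ∈ boxes E W, x ∈ C := by
  intro x
  refine ⟨_, ⟨x, rfl⟩, ?_⟩
  intro i
  have := npos E W x
  linarith

theorem boxes_supp (x0 y : R (IP E W)) (h : ∀ i, y.1 i < x0.1 i + 1 / (N : ℝ)) :
    x0.1 (bigv E W y) ≠ 0 := by
  have h1 := h (bigv E W y)
  have h2 := bigv_spec E W y
  have : 0 < x0.1 (bigv E W y) := by linarith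
  exact this.ne'

/-- the certificate theorem -/
theorem not_TF_one (L2 : List (ℤ × Fin N × Fin N × Fin N)) (L1 : List (ℤ × Fin N × Fin N))
    (b : Fin N → Fin N → ZMod 2) (x0 : R (IP E W))
    (h2 : ∀ t ∈ L2, IP E W {t.2.1, t.2.2.1, t.2.2.2})
    (h1 : ∀ t ∈ L1, IP E W {t.2.1, t.2.2})
    (hb0 : ∀ i, b i i = 0) (hbs : ∀ i j, b j i = - b i j)
    (hbc : ∀ i j k, IP E W {i, j, k} → b j k - b i k + b i j = 0)
    (hsum : ∀ t ∈ nrml (bdL L2 ++ L1.map fun t => ((-2) * t.1, t.2)), t.1 = 0)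
    (hodd : ch (fun p : Fin N × Fin N => b p.1 p.2) L1 ≠ 0) : ¬ TF (R (IP E W)) 1 := by
  intro hTF
  set K := R (IP E W) with hK
  let e1 : Fin N × Fin N → (Sing K 1 →₀ ℤ) := fun p => single (sx E W x0 ![p.1, p.2]) 1
  let e2 : Fin N × Fin N × Fin N → (Sing K 2 →₀ ℤ) := fun p =>
    single (sx E W x0 ![p.1, p.2.1, p.2.2]) 1
  have r3 : ∀ i j k : Fin N, Set.range ![i, j, k] = {i, j, k} := by
    intro i j k
    ext x
    simp only [Matrix.range_cons, Matrix.range_empty, Set.union_empty, Set.mem_union,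
      Set.mem_insert_iff, Set.mem_singleton_iff]
  have r2 : ∀ i j : Fin N, Set.range ![i, j] = {i, j} := by
    intro i j
    ext x
    simp only [Matrix.range_cons, Matrix.range_empty, Set.union_empty, Set.mem_union,
      Set.mem_insert_iff, Set.mem_singleton_iff]
  have hbd : ∀ L : List (ℤ × Fin N × Fin N × Fin N),
      (∀ t ∈ L, IP E W {t.2.1, t.2.2.1, t.2.2.2}) → ch e1 (bdL L) = bdry K 1 (ch e2 L) := by
    intro L
    induction L with
    | nil => intro _; simp [bdL, ch]
    | cons t L ih =>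
      intro hL
      rw [bdL, ch_cons, ch_cons, ch_cons, ch_cons, map_add, ih fun s hs =>
        hL s (List.mem_cons_of_mem _ hs), map_smul]
      have ht := hL t List.mem_cons_self
      obtain ⟨c, i, j, k⟩ := t
      simp only at ht ⊢
      have hf : IP E W (Set.range ![i, j, k]) := by rw [r3]; exact ht
      have hfi : ∀ l : Fin 3, IP E W (Set.range (![i, j, k] ∘ l.succAbove)) := fun l =>
        hf.down (Set.range_comp_subset_range _ _)
      have key : bdry K 1 (e2 (i, j, k)) = e1 (j, k) - e1 (i, k) + e1 (i, j) := by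
        simp only [e2, e1]
        rw [bdry_two, sx_of E W x0 _ hf, sxp_face E W _ hf 0 (hfi 0), sxp_face E W _ hf 1 (hfi 1),
          sxp_face E W _ hf 2 (hfi 2), ← sx_of E W x0, ← sx_of E W x0, ← sx_of E W x0]
        have q0 : (![i, j, k] ∘ (0 : Fin 3).succAbove) = ![j, k] := by
          funext l; fin_cases l <;> rfl
        have q1 : (![i, j, k] ∘ (1 : Fin 3).succAbove) = ![i, k] := by
          funext l; fin_cases l <;> rfl
        have q2 : (![i, j, k] ∘ (2 : Fin 3).succAbove) = ![i, j] := by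
          funext l; fin_cases l <;> rfl
        rw [q0, q1, q2]
      rw [key, smul_add, smul_sub, neg_smul]
      abel
  set z := ch e1 L1 with hz
  have h2z : (2 : ℤ) • z = bdry K 1 (ch e2 L2) := by
    have := ch_zero e1 _ hsum
    rw [ch_nrml, ch_append, ch_scale, hbd L2 h2, neg_smul, ← sub_eq_add_neg, sub_eq_zero] at this
    exact this.symm
  have hzc : z ∈ Cyc K 1 := by
    change bdry K 0 z = 0
    have h3 : bdry K 0 ((2 : ℤ) • z) = 0 := by rw [h2z, bdry_bdry]
    rw [map_smul] at h3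
    exact (smul_eq_zero.mp h3).resolve_left two_ne_zero
  obtain ⟨w, hw⟩ := hTF z hzc ⟨_, h2z.symm⟩
  let β : Sing K 1 → ZMod 2 := fun σ => b (bigv E W (σ (Sc.vert 1 0))) (bigv E W (σ (Sc.vert 1 1)))
  have hface : ∀ (τ : Sing K 2) (i : Fin 3) (j : Fin 2),
      sface 1 i τ (Sc.vert 1 j) = τ (Sc.vert 2 (i.succAbove j)) := by
    intro τ i j
    rw [show sface 1 i τ = _ from Sc.sface_eq i τ]
    change τ (Sc.aff _ (Sc.vert 1 j)) = _
    rw [Sc.aff_vert]
  have hβ : ∀ τ ∈ Sc.smallSet (boxes E W) 2,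
      β (sface 1 0 τ) - β (sface 1 1 τ) + β (sface 1 2 τ) = 0 := by
    rintro τ ⟨_, ⟨x1, rfl⟩, hτ⟩
    simp only [β, hface]
    have hs : ∀ j : Fin 3, x1.1 (bigv E W (τ (Sc.vert 2 j))) ≠ 0 := fun j =>
      boxes_supp E W x1 _ (hτ ⟨Sc.vert 2 j, rfl⟩)
    exact hbc (bigv E W (τ (Sc.vert 2 0))) (bigv E W (τ (Sc.vert 2 1)))
      (bigv E W (τ (Sc.vert 2 2))) (x1.2.2.down (by
        rintro i (rfl | rfl | rfl)
        · exact hs 0
        · exact hs 1
        · exact hs 2))
  have hev0 : ev β (Sc.rho (boxes E W) 1 z) = 0 := by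
    rw [← hw]
    exact ev_bdry (boxes E W) (boxes_open E W) (boxes_cov E W) β hβ w
  have hedge : ∀ p : Fin N × Fin N, IP E W {p.1, p.2} →
      ev β (Sc.rho (boxes E W) 1 (e1 p)) = b p.1 p.2 := by
    rintro ⟨i, j⟩ hp
    have hf : IP E W (Set.range ![i, j]) := by rw [r2]; exact hp
    simp only [e1]
    rw [sx_of E W x0 _ hf]
    rw [ev_edge (boxes E W) {x : K | ∀ l, x.1 l ≠ 0 → l = i ∨ l = j} β
      (fun x => b i (bigv E W x))]
    · have hv0 : bigv E W (sxp E W ![i, j] hf (Sc.vert 1 0)) = i := by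
        have := bigv_ne E W (sxp E W ![i, j] hf (Sc.vert 1 0))
        rw [sxp_vert] at this
        by_contra hcon
        exact this (if_neg hcon)
      have hv1 : bigv E W (sxp E W ![i, j] hf (Sc.vert 1 1)) = j := by
        have := bigv_ne E W (sxp E W ![i, j] hf (Sc.vert 1 1))
        rw [sxp_vert] at this
        by_contra hcon
        exact this (if_neg hcon)
      rw [hv0, hv1, hb0, sub_zero]
    · intro τ hτ
      have c0 := hτ ⟨Sc.vert 1 0, rfl⟩ _ (bigv_ne E W _)
      have c1 := hτ ⟨Sc.vert 1 1, rfl⟩ _ (bigv_ne E W _)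
      simp only [β]
      rcases c0 with c0 | c0 <;> rcases c1 with c1 | c1 <;> rw [c0, c1]
      · rw [hb0, sub_zero]
      · rw [hb0, sub_zero]
      · rw [hb0, zero_sub, ← hbs]
      · rw [hb0, sub_self]
    · rintro _ ⟨t, rfl⟩ l hl
      have := map_supp ![i, j] t l hl
      rw [r2] at this
      exact this
  have hfin : ∀ L : List (ℤ × Fin N × Fin N), (∀ t ∈ L, IP E W {t.2.1, t.2.2}) →
      ev β (Sc.rho (boxes E W) 1 (ch e1 L)) = ch (fun p : Fin N × Fin N => b p.1 p.2) L := by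
    intro L
    induction L with
    | nil => intro _; simp [ch]
    | cons t L ih =>
      intro hL
      rw [ch_cons, ch_cons, map_add, map_add, ih fun s hs => hL s (List.mem_cons_of_mem _ hs),
        map_smul, map_smul, hedge t.2 (hL t List.mem_cons_self)]
  apply hodd
  rw [← hfin L1 h1, ← hz, hev0]

end cert

end Pool.Agent.H129.LN
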