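import Pool.Agent.H129.LN.Data
import Pool.Agent.H129.LN.Detect

/-! The core of the example has 2-torsion in its first homology. -/

set_option autoImplicit false

namespace Pool.Agent.H129.LN

open Pool.Agent.Helper534.HB Finsupp

/-- triangles of the 2-chain -/
def cL2 : List (ℤ × Fin 74 × Fin 74 × Fin 74) :=
  [(-1, 5, 11, 37), (1, 5, 11, 50), (1, 5, 21, 43), (-1, 5, 21, 50), (-1, 5, 37, 43), (-1, 11,
  14, 37), (-1, 11, 14, 65), (-1, 11, 30, 50), (1, 11, 30, 65), (1, 14, 21, 64), (-1, 14, 21,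
  65), (-1, 14, 25, 37), (-1, 14, 25, 64), (-1, 21, 43, 65), (1, 21, 50, 64), (-1, 25, 30, 43),
  (1, 25, 30, 50), (1, 25, 37, 43), (-1, 25, 50, 64), (1, 30, 43, 65)]

/-- edges of the cycle -/
def cL1 : List (ℤ × Fin 74 × Fin 74) :=
  [(-1, 11, 14), (1, 11, 50), (-1, 14, 25), (-1, 25, 50)]

/-- bit rows of the mod 2 cocycle -/
def bRows : List ℕ :=
  [0, 0, 0, 0, 0, 8933534072832, 0, 0, 0, 0, 0, 137438953472, 0, 0, 18446744211182059520, 0, 0,
  0, 0, 0, 0, 18447869973616394272, 0, 0, 0, 16384, 0, 0, 0, 0, 0, 0, 0, 0, 0, 0, 0, 18464, 0, 0,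
  0, 0, 0, 32, 0, 0, 0, 0, 0, 0, 2097152, 0, 0, 0, 0, 0, 0, 0, 0, 0, 0, 0, 0, 0, 2113536, 0, 0,
  0, 0, 0, 0, 0, 0, 0]

/-- active vertices of the core -/
def act : List (Fin 74) := [5, 11, 14, 21, 25, 30, 37, 43, 50, 64, 65]

def bB (i j : Fin 74) : Bool := (bRows.getD i 0).testBit j

def eB (i j : Fin 74) : Bool := (st64.2.getD i 0).testBit j

def wB (i : Fin 74) : Bool := st64.1.testBit i


/-- faces, as a Boolean -/
def ok3 (i j k : Fin 74) : Bool :=
  wB i && wB j && wB k && !eB i i && !eB i j && !eB i k && !eB j i && !eB j j && !eB j k &&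
    !eB k i && !eB k j && !eB k k

abbrev EK : Fin 74 → Fin 74 → Prop := EE 74 (lst st0 moves).2
abbrev WK : Fin 74 → Prop := WW 74 (lst st0 moves).1

theorem EK_iff (i j : Fin 74) : EK i j ↔ eB i j = true := Iff.rfl

theorem WK_iff (i : Fin 74) : WK i ↔ wB i = true := Iff.rfl

theorem ok3_iff (i j k : Fin 74) : IP EK WK {i, j, k} ↔ ok3 i j k = true := by
  simp only [IP, ok3, Set.mem_insert_iff, Set.mem_singleton_iff, forall_eq_or_imp, forall_eq,
    EK_iff, WK_iff, Bool.and_eq_true, Bool.not_eq_true', Bool.not_eq_true]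
  tauto

theorem act_all : ∀ i : Fin 74, wB i = true → i ∈ act := by decide +kernel

theorem act_cocycle : ∀ i ∈ act, ∀ j ∈ act, ∀ k ∈ act, ok3 i j k = true →
    xor (xor (bB j k) (bB i k)) (bB i j) = false := by decide +kernel

theorem b_zero : ∀ i : Fin 74, bB i i = false := by decide +kernel

theorem b_symm : ∀ i j : Fin 74, bB j i = bB i j := by decide +kernel

theorem L2_ok : ∀ t ∈ cL2, ok3 t.2.1 t.2.2.1 t.2.2.2 = true := by decide +kernel

theorem L1_ok : ∀ t ∈ cL1, ok3 t.2.1 t.2.1 t.2.2 = true := by decide +kernel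

theorem sum_ok : ∀ t ∈ nrml (bdL cL2 ++ cL1.map fun t => ((-2) * t.1, t.2)), t.1 = 0 := by
  decide +kernel

/-- the cocycle -/
def bZ (i j : Fin 74) : ZMod 2 := if bB i j = true then 1 else 0

theorem not_TF_core : ¬ TF (R (IP EK WK)) 1 := by
  have h1 : ∀ t ∈ cL1, IP EK WK {t.2.1, t.2.2} := by
    intro t ht
    have := (ok3_iff t.2.1 t.2.1 t.2.2).mpr (L1_ok t ht)
    rwa [Set.insert_eq_of_mem (by simp)] at this
  have hp : ∀ i : Fin 74, IP EK WK {i} → Nonempty (R (IP EK WK)) := by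
    intro i hi
    refine ⟨⟨Pi.single i 1, single_mem_stdSimplex ℝ i, hi.down ?_⟩⟩
    intro j hj
    by_contra h
    exact hj (Pi.single_eq_of_ne h 1)
  obtain ⟨x0⟩ := hp 5 (by
    have := (ok3_iff 5 5 5).mpr (by decide +kernel)
    simpa using this)
  apply not_TF_one EK WK cL2 cL1 bZ x0
  · intro t ht
    exact (ok3_iff _ _ _).mpr (L2_ok t ht)
  · exact h1
  · intro i
    simp [bZ, b_zero i]
  · intro i j
    unfold bZ
    rw [b_symm i j]
    split_ifs
    · decide
    · decide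
  · intro i j k h
    have h3 := (ok3_iff i j k).mp h
    have hw := h.1
    have c := act_cocycle i (act_all i (hw i (by simp))) j (act_all j (hw j (by simp)))
      k (act_all k (hw k (by simp))) h3
    unfold bZ
    revert c
    cases bB j k <;> cases bB i k <;> cases bB i j <;> decide
  · exact sum_ok
  · have e : ch (fun p : Fin 74 × Fin 74 => bZ p.1 p.2) cL1 = 1 := by
      decide +kernel
    rw [e]
    exact one_ne_zero

end Pool.Agent.H129.LN
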