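import Pool.Agent.H129.LN.Sphere
import Pool.Graph.R_pool_sql_team_seeded_3997aac3.Q173.CG.Defs

/-! The homology of wedges of spheres has no 2-torsion. -/

set_option autoImplicit false

namespace Pool.Agent.H129.LN

open Pool.Agent.Helper534.HB Finsupp Metric Q173.CG

theorem basePt_eq (m : ℕ) : basePt m = bp m := Subtype.ext rfl

/-- contracting the coordinates in a mask -/
noncomputable def ctrm {k : ℕ} {d : Fin k → ℕ} (M : Fin k → Prop) [DecidablePred M]
    (p : {x : ∀ i, Sph (d i) // ∀ i, M i → -1 < (x i).1 0} × unitInterval) :
    ∀ i, Sph (d i) :=
  fun i => if h : M i then hc (⟨p.1.1 i, p.1.2 i h⟩, p.2) else p.1.1 i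

theorem continuous_ctrm {k : ℕ} {d : Fin k → ℕ} (M : Fin k → Prop) [DecidablePred M] :
    Continuous (ctrm (d := d) M) := by
  apply continuous_pi
  intro i
  unfold ctrm
  by_cases h : M i
  · simp only [h, dite_true]
    apply continuous_hc.comp
    apply Continuous.prodMk _ continuous_snd
    apply Continuous.subtype_mk
    exact (continuous_apply i).comp (continuous_subtype_val.comp continuous_fst)
  · simp only [h, dite_false]
    exact (continuous_apply i).comp (continuous_subtype_val.comp continuous_fst)

theorem ctrm_base {k : ℕ} {d : Fin k → ℕ} (M : Fin k → Prop) [DecidablePred M]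
    (p : {x : ∀ i, Sph (d i) // ∀ i, M i → -1 < (x i).1 0} × unitInterval) (i : Fin k)
    (h : p.1.1 i = basePt (d i)) : ctrm M p i = basePt (d i) := by
  unfold ctrm
  by_cases hM : M i
  · simp only [hM, dite_true]
    rw [basePt_eq]
    exact hc_base _ _ (h.trans (basePt_eq _))
  · simp only [hM, dite_false]
    exact h

/-- the open subset of the wedge where the masked coordinates are in the open hemisphere -/
def WS {k : ℕ} (d : Fin k → ℕ) (M : Fin k → Prop) : Set (Wedge d) :=
  {x | ∀ i, M i → 0 < (x.1 i).1 0}

theorem isOpen_WS {k : ℕ} (d : Fin k → ℕ) (M : Fin k → Prop) : IsOpen (WS d M) := by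
  have : WS d M = ⋂ i, {x : Wedge d | M i → 0 < (x.1 i).1 0} := by
    ext x; simp [WS]
  rw [this]
  apply isOpen_iInter_of_finite
  intro i
  by_cases h : M i
  · simp only [h, true_imp_iff]
    apply isOpen_lt continuous_const
    have h1 : Continuous fun x : Wedge d => (x.1 i).1 :=
      continuous_subtype_val.comp ((continuous_apply i).comp continuous_subtype_val)
    exact (EuclideanSpace.proj (𝕜 := ℝ) (0 : Fin (d i + 1))).continuous.comp h1
  · simp [h]

/-- the contraction inside the wedge -/
noncomputable def WH {k : ℕ} {d : Fin k → ℕ} (M : Fin k → Prop) [DecidablePred M]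
    (p : WS d M × unitInterval) : Wedge d :=
  ⟨ctrm M (⟨p.1.1.1, fun i h => lt_trans (by norm_num) (p.1.2 i h)⟩, p.2), by
    intro i j hij
    rcases p.1.1.2 i j hij with h | h
    · left; exact ctrm_base M _ i h
    · right; exact ctrm_base M _ j h⟩

theorem continuous_WH {k : ℕ} {d : Fin k → ℕ} (M : Fin k → Prop) [DecidablePred M] :
    Continuous (WH (d := d) M) := by
  apply Continuous.subtype_mk
  apply (continuous_ctrm M).comp
  apply Continuous.prodMk _ continuous_snd
  apply Continuous.subtype_mk
  have h1 : Continuous (fun x : Wedge d => x.1) := continuous_subtype_val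
  have h2 : Continuous (fun x : WS d M => x.1) := continuous_subtype_val
  exact h1.comp (h2.comp continuous_fst)

theorem WH_of {k : ℕ} {d : Fin k → ℕ} (M : Fin k → Prop) [DecidablePred M]
    (p : WS d M × unitInterval) (i : Fin k) (h : M i) :
    (WH M p).1 i = hc (⟨p.1.1.1 i, lt_trans (by norm_num) (p.1.2 i h)⟩, p.2) := by
  simp [WH, ctrm, h]

theorem WH_not {k : ℕ} {d : Fin k → ℕ} (M : Fin k → Prop) [DecidablePred M]
    (p : WS d M × unitInterval) (i : Fin k) (h : ¬ M i) :
    (WH M p).1 i = p.1.1.1 i := by
  simp [WH, ctrm, h]

theorem WH_mem {k : ℕ} {d : Fin k → ℕ} (M : Fin k → Prop) [DecidablePred M]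
    (p : WS d M × unitInterval) (i : Fin k) (h : 0 < (p.1.1.1 i).1 0) :
    0 < ((WH M p).1 i).1 0 := by
  by_cases hM : M i
  · rw [WH_of M p i hM]
    exact hc_pos _ _ h
  · rw [WH_not M p i hM]
    exact h

theorem WH_zero {k : ℕ} {d : Fin k → ℕ} (M : Fin k → Prop) [DecidablePred M]
    (x : WS d M) : WH M (x, 0) = x.1 := by
  apply Subtype.ext
  funext i
  by_cases hM : M i
  · rw [WH_of M _ i hM]
    exact hc_zero _
  · rw [WH_not M _ i hM]

theorem WH_one {k : ℕ} {d : Fin k → ℕ} (M : Fin k → Prop) [DecidablePred M]
    (x : WS d M) (i : Fin k) (h : M i) : (WH M (x, 1)).1 i = basePt (d i) := by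
  rw [WH_of M _ i h, basePt_eq]
  exact hc_one _

theorem basePt_pos (m : ℕ) : 0 < (basePt m).1 0 := by
  rw [basePt_eq, bp_zero]; norm_num

theorem TF_Wedge : ∀ (k : ℕ) (d : Fin k → ℕ) (n : ℕ), TF (Wedge d) n := by
  intro k
  induction k with
  | zero =>
    intro d n
    cases n with
    | zero => exact TF_zero _
    | succ n =>
      intro z hz _
      have c : Ctr (Wedge d) := by
        refine ⟨⟨fun i => i.elim0, fun i => i.elim0⟩, ⟨Prod.fst, continuous_fst⟩,
          fun x => rfl, fun x => ?_⟩
        apply Subtype.ext
        funext i
        exact i.elim0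
      exact c.bdy n z hz
  | succ k ih =>
    intro d n
    cases n with
    | zero => exact TF_zero _
    | succ n =>
      have hA : TF (WS d (fun i => i = 0)) (n + 1) := by
        let f : C(WS d (fun i => i = 0), Wedge (fun i : Fin k => d i.succ)) :=
          ⟨fun x => ⟨fun i => x.1.1 i.succ, fun i j h =>
            x.1.2 i.succ j.succ (fun e => h (Fin.succ_injective _ e))⟩, by
            apply Continuous.subtype_mk
            apply continuous_pi
            intro i
            exact (continuous_apply i.succ).comp
              (continuous_subtype_val.comp continuous_subtype_val)⟩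
        let g : C(Wedge (fun i : Fin k => d i.succ), WS d (fun i => i = 0)) :=
          ⟨fun y => ⟨⟨Fin.cons (α := fun i => Sph (d i)) (basePt (d 0)) y.1, by
            intro i j
            refine Fin.cases ?_ (fun i => ?_) i
            · intro _; left; rfl
            · refine Fin.cases ?_ (fun j => ?_) j
              · intro _; right; rfl
              · intro h
                exact y.2 i j (fun e => h (by rw [e]))⟩, by
            rintro i rfl
            exact basePt_pos _⟩, by
            apply Continuous.subtype_mk
            apply Continuous.subtype_mk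
            apply continuous_pi
            intro i
            refine Fin.cases ?_ (fun i => ?_) i
            · exact continuous_const
            · exact (continuous_apply i).comp continuous_subtype_val⟩
        let H : C(WS d (fun i => i = 0) × unitInterval, WS d (fun i => i = 0)) :=
          ⟨fun p => ⟨WH _ p, fun i h => WH_mem _ p i (p.1.2 i h)⟩,
            (continuous_WH _).subtype_mk _⟩
        apply TF_of_HE (f := f) _ _ (ih (fun i => d i.succ) (n + 1))
        refine HE_of_homotopyEquiv f g H ⟨Prod.fst, continuous_fst⟩ ?_ ?_ (fun _ => rfl) ?_
        · intro x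
          exact Subtype.ext (WH_zero _ x)
        · intro x
          apply Subtype.ext
          apply Subtype.ext
          funext i
          refine Fin.cases ?_ (fun i => ?_) i
          · exact WH_one _ x 0 rfl
          · exact WH_not _ _ _ (Fin.succ_ne_zero i)
        · intro y
          rfl
      have hB : TF (WS d (fun i => i ≠ 0)) (n + 1) := by
        let f : C(WS d (fun i => i ≠ 0), SS (d 0 + 1)) :=
          ⟨fun x => x.1.1 0, (continuous_apply 0).comp
              (continuous_subtype_val.comp continuous_subtype_val)⟩
        let g : C(SS (d 0 + 1), WS d (fun i => i ≠ 0)) :=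
          ⟨fun y => ⟨⟨Fin.cons (α := fun i => Sph (d i)) y (fun i => basePt (d i.succ)), by
            intro i j
            refine Fin.cases ?_ (fun i => ?_) i
            · refine Fin.cases ?_ (fun j => ?_) j
              · intro h; exact absurd rfl h
              · intro _; right; rfl
            · intro _; left; rfl⟩, by
            intro i
            refine Fin.cases ?_ (fun i => ?_) i
            · intro h; exact absurd rfl h
            · intro _; exact basePt_pos _⟩, by
            apply Continuous.subtype_mk
            apply Continuous.subtype_mk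
            apply continuous_pi
            intro i
            refine Fin.cases ?_ (fun i => ?_) i
            · exact continuous_id
            · exact continuous_const⟩
        let H : C(WS d (fun i => i ≠ 0) × unitInterval, WS d (fun i => i ≠ 0)) :=
          ⟨fun p => ⟨WH _ p, fun i h => WH_mem _ p i (p.1.2 i h)⟩,
            (continuous_WH _).subtype_mk _⟩
        apply TF_of_HE (f := f) _ _ (TF_SS (d 0 + 1) (n + 1))
        refine HE_of_homotopyEquiv f g H ⟨Prod.fst, continuous_fst⟩ ?_ ?_ (fun _ => rfl) ?_
        · intro x
          exact Subtype.ext (WH_zero _ x)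
        · intro x
          apply Subtype.ext
          apply Subtype.ext
          funext i
          refine Fin.cases ?_ (fun i => ?_) i
          · exact WH_not _ _ _ (by simp)
          · exact WH_one _ x i.succ (Fin.succ_ne_zero i)
        · intro y
          rfl
      refine TF_of_cover_inter (WS d (fun i => i = 0)) (WS d (fun i => i ≠ 0))
        (isOpen_WS _ _) (isOpen_WS _ _) ?_ ?_ n hA hB
      · intro x
        by_cases h : x.1 0 = basePt (d 0)
        · left
          rintro i rfl
          rw [h]; exact basePt_pos _
        · right
          intro i hi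
          rcases x.2 0 i (Ne.symm hi) with h1 | h1
          · exact absurd h1 h
          · rw [h1]; exact basePt_pos _
      · have hall : ∀ x : ↥(WS d (fun i => i = 0) ∩ WS d (fun i => i ≠ 0)),
            x.1 ∈ WS d (fun _ => True) := by
          intro x i _
          by_cases h : i = 0
          · exact x.2.1 i h
          · exact x.2.2 i h
        refine Ctr_of_set _ ⟨⟨fun i => basePt (d i), fun i _ _ => Or.inl rfl⟩,
          fun i _ => basePt_pos _, fun i _ => basePt_pos _⟩
          (fun p => WH (fun _ => True) (⟨p.1.1, hall p.1⟩, p.2)) ?_ ?_ ?_ ?_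
        · apply (continuous_WH _).comp
          apply Continuous.prodMk _ continuous_snd
          apply Continuous.subtype_mk
          exact continuous_subtype_val.comp continuous_fst
        · intro p
          have := hall p.1
          exact ⟨fun i _ => WH_mem _ _ i (this i trivial), fun i _ => WH_mem _ _ i (this i trivial)⟩
        · intro x
          exact WH_zero _ _
        · intro x
          apply Subtype.ext
          funext i
          exact WH_one _ _ i trivial

end Pool.Agent.H129.LN
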