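import Pool.Agent.H129.LN.Core
import Pool.Agent.H129.LN.Wedge
import Pool.Graph.R_pool_sql_team_seeded_3997aac3.Q173.CG.Chords

/-! A bipartite circle graph whose independence complex is not a wedge of spheres. -/

set_option autoImplicit false

namespace Pool.Agent.H129.LN

open Pool.Agent.Helper534.HB Finsupp Q173.CG

/-- the chords: pairs of positions among the points `0, ..., 147` in cyclic order -/
def chords : List (ℕ × ℕ) :=
  [(0,143), (1,39), (2,5), (3,137), (4,8), (6,33), (7,10), (9,12), (11,14), (13,16), (15,19),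
  (17,113), (18,21), (20,24), (22,110), (23,26), (25,28), (27,30), (29,32), (31,35), (34,37),
  (36,61), (38,41), (40,43), (42,46), (44,147), (45,48), (47,50), (49,52), (51,56), (53,146),
  (54,69), (55,58), (57,60), (59,63), (62,65), (64,67), (66,84), (68,73), (70,145), (71,124),
  (72,75), (74,79), (76,123), (77,92), (78,81), (80,83), (82,86), (85,88), (87,90), (89,105),
  (91,94), (93,96), (95,99), (97,122), (98,101), (100,103), (102,120), (104,107), (106,109),
  (108,111), (112,115), (114,117), (116,119), (118,132), (121,126), (125,128), (127,130),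
  (129,140), (131,134), (133,136), (135,138), (139,142), (141,144)]

/-- for each position, the chord ending there -/
def wordL : List ℕ :=
  [0, 1, 2, 3, 4, 2, 5, 6, 4, 7, 6, 8, 7, 9, 8, 10, 9, 11, 12, 10, 13, 12, 14, 15, 13, 16, 15,
  17, 16, 18, 17, 19, 18, 5, 20, 19, 21, 20, 22, 1, 23, 22, 24, 23, 25, 26, 24, 27, 26, 28, 27,
  29, 28, 30, 31, 32, 29, 33, 32, 34, 33, 21, 35, 34, 36, 35, 37, 36, 38, 31, 39, 40, 41, 38, 42,
  41, 43, 44, 45, 42, 46, 45, 47, 46, 37, 48, 47, 49, 48, 50, 49, 51, 44, 52, 51, 53, 52, 54, 55,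
  53, 56, 55, 57, 56, 58, 50, 59, 58, 60, 59, 14, 60, 61, 11, 62, 61, 63, 62, 64, 63, 57, 65, 54,
  43, 40, 66, 65, 67, 66, 68, 67, 69, 64, 70, 69, 71, 70, 3, 71, 72, 68, 73, 72, 0, 73, 39, 30,
  25]

/-- alternating chords -/
def altB (c d : ℕ × ℕ) : Bool :=
  (Nat.blt c.1 d.1 && Nat.blt d.1 c.2 && Nat.blt c.2 d.2) ||
    (Nat.blt d.1 c.1 && Nat.blt c.1 d.2 && Nat.blt d.2 c.2)

/-- first endpoint -/
def ea (v : Fin 74) : ℕ := (chords.getD v (0, 0)).1

/-- second endpoint -/
def eb (v : Fin 74) : ℕ := (chords.getD v (0, 0)).2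

theorem altB_symm (c d : ℕ × ℕ) : altB c d = altB d c := by
  unfold altB
  exact Bool.or_comm _ _

/-- the graph -/
def gLando : SimpleGraph (Fin 74) where
  Adj v w := altB (ea v, eb v) (ea w, eb w) = true
  symm := ⟨fun v w h => by rw [altB_symm]; exact h⟩
  loopless := ⟨fun v h => by
    simp only [altB, Bool.or_eq_true, Bool.and_eq_true, Nat.blt_eq] at h
    omega⟩

theorem rows_ok : ∀ i j : Fin 74, (rw0.getD i 0).testBit j = altB (ea i, eb i) (ea j, eb j) := by
  decide +kernel

theorem colour_ok : ∀ i j : Fin 74, (rw0.getD i 0).testBit j = true →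
    Nat.testBit 12778320697119246460262 i ≠ Nat.testBit 12778320697119246460262 j := by
  decide +kernel

theorem full_mask : ∀ i : Fin 74, Nat.testBit st0.1 i = true := by decide +kernel

theorem ea_lt : ∀ i : Fin 74, ea i < eb i := by decide +kernel

theorem word_ea : ∀ i : Fin 74, wordL.getD (ea i) 0 = i := by decide +kernel

theorem word_eb : ∀ i : Fin 74, wordL.getD (eb i) 0 = i := by decide +kernel

theorem ends_inj : Function.Injective (Sum.elim ea eb : Fin 74 ⊕ Fin 74 → ℕ) := by
  intro x y h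
  rcases x with x | x <;> rcases y with y | y <;> simp only [Sum.elim_inl, Sum.elim_inr] at h
  · have := word_ea x
    rw [h, word_ea] at this
    rw [Fin.ext this]
  · have := word_ea x
    rw [h, word_eb] at this
    have e : y = x := Fin.ext this
    subst e
    exact absurd h (ea_lt y).ne
  · have := word_eb x
    rw [h, word_ea] at this
    have e : y = x := Fin.ext this
    subst e
    exact absurd h (ea_lt y).ne'
  · have := word_eb x
    rw [h, word_eb] at this
    rw [Fin.ext this]

theorem isCircleGraph : IsCircleGraph gLando := by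
  refine ⟨fun v => cpt (ea v), fun v => cpt (eb v), ?_, ?_⟩
  · have h1 : (Sum.elim (fun v => cpt (ea v)) (fun v => cpt (eb v)) :
        Fin 74 ⊕ Fin 74 → Circle) = fun x => cpt ((Sum.elim ea eb x : ℕ) : ℝ) := by
      funext x
      rcases x with x | x <;> rfl
    rw [h1]
    intro x y hxy
    exact ends_inj (Nat.cast_injective (cpt_injective hxy))
  · intro v w
    by_cases hvw : v = w
    · subst hvw
      exact ⟨fun h => absurd h gLando.irrefl, fun h => absurd rfl h.1⟩
    have hne : ∀ x y : Fin 74 ⊕ Fin 74, x ≠ y → ((Sum.elim ea eb x : ℕ) : ℝ) ≠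
        ((Sum.elim ea eb y : ℕ) : ℝ) := by
      intro x y hxy h
      exact hxy (ends_inj (Nat.cast_injective h))
    have h1 := inter_iff (a := ea v) (b := eb v) (c := ea w) (d := eb w)
      (by exact_mod_cast ea_lt v) (by exact_mod_cast ea_lt w)
      (hne (Sum.inl w) (Sum.inl v) (by simpa using Ne.symm hvw))
      (hne (Sum.inl w) (Sum.inr v) (by simp))
      (hne (Sum.inr w) (Sum.inl v) (by simp))
      (hne (Sum.inr w) (Sum.inr v) (by simpa using Ne.symm hvw))
    rw [coe_cpt, coe_cpt, coe_cpt, coe_cpt, h1]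
    have h2 : gLando.Adj v w ↔ altB (ea v, eb v) (ea w, eb w) = true := Iff.rfl
    rw [h2]
    simp only [altB, Bool.or_eq_true, Bool.and_eq_true, Nat.blt_eq]
    norm_cast
    constructor
    · rintro (⟨⟨h3, h4⟩, h5⟩ | ⟨⟨h3, h4⟩, h5⟩)
      · exact ⟨hvw, Or.inl ⟨h3, h4, h5⟩⟩
      · exact ⟨hvw, Or.inr ⟨h3, h4, h5⟩⟩
    · rintro ⟨_, ⟨h3, h4, h5⟩ | ⟨h3, h4, h5⟩⟩
      · exact Or.inl ⟨⟨h3, h4⟩, h5⟩
      · exact Or.inr ⟨⟨h3, h4⟩, h5⟩

theorem adj_iff (i j : Fin 74) : gLando.Adj i j ↔ EE 74 rw0 i j := by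
  unfold EE
  rw [rows_ok]
  exact Iff.rfl

theorem colorable : gLando.Colorable 2 := by
  let c : gLando.Coloring Bool := SimpleGraph.Coloring.mk (fun i => Nat.testBit 12778320697119246460262 i) (by
    intro v w h
    exact colour_ok v w ((adj_iff v w).mp h))
  simpa using c.colorable

theorem sym_rows : Sym 74 rw0 := by
  refine ⟨by decide +kernel, ?_⟩
  intro i j h
  rw [← adj_iff] at h ⊢
  exact h.symm

theorem not_TF_start : ¬ TF (R (IP (EE 74 rw0) (WW 74 st0.1))) (0 + 1 + dgs moves) :=
  (run_sound 74 moves st0 run_ok sym_rows).2 0 not_TF_core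

theorem not_TF_indep : ¬ TF (IndepComplex gLando) (0 + 1 + dgs moves) := by
  have hiff : ∀ S : Set (Fin 74), IP (EE 74 rw0) (WW 74 st0.1) S ↔ gLando.IsIndepSet S := by
    intro S
    constructor
    · intro h i hi j hj _ hij
      exact h.2 i hi j hj ((adj_iff i j).mp hij)
    · intro h
      refine ⟨fun i _ => full_mask i, fun i hi j hj hij => ?_⟩
      have hadj := (adj_iff i j).mpr hij
      exact h hi hj hadj.ne hadj
  let e : IndepComplex gLando ≃ₜ R (IP (EE 74 rw0) (WW 74 st0.1)) :=
    { toFun := fun x => ⟨x.1, x.2.1, (hiff _).mpr x.2.2⟩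
      invFun := fun x => ⟨x.1, x.2.1, (hiff _).mp x.2.2⟩
      left_inv := fun _ => rfl
      right_inv := fun _ => rfl
      continuous_toFun := by
        apply Continuous.subtype_mk
        exact continuous_subtype_val
      continuous_invFun := by
        apply Continuous.subtype_mk
        exact continuous_subtype_val }
  intro h
  apply not_TF_start
  exact TF_of_HE' (HE_of_homeo e ⟨e, e.continuous⟩ (fun _ => rfl)) _ h

theorem TF_of_homotopyEquiv {X Y : Type} [TopologicalSpace X] [TopologicalSpace Y]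
    (e : ContinuousMap.HomotopyEquiv X Y) (n : ℕ) (h : TF Y n) : TF X n := by
  obtain ⟨H⟩ := e.left_inv
  obtain ⟨K⟩ := e.right_inv
  apply TF_of_HE (f := e.toFun) _ n h
  let H' : C(X × unitInterval, X) := ⟨fun p => H.symm (p.2, p.1), by fun_prop⟩
  let K' : C(Y × unitInterval, Y) := ⟨fun p => K.symm (p.2, p.1), by fun_prop⟩
  exact HE_of_homotopyEquiv e.toFun e.invFun H' K' (fun x => H.symm.apply_zero x)
    (fun x => H.symm.apply_one x) (fun x => K.symm.apply_zero x) (fun x => K.symm.apply_one x)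

theorem main : ∃ G : SimpleGraph (Fin 74), IsCircleGraph G ∧ G.Colorable 2 ∧
    ∀ (k : ℕ) (d : Fin k → ℕ),
      IsEmpty (ContinuousMap.HomotopyEquiv (IndepComplex G) (Wedge d)) := by
  refine ⟨gLando, isCircleGraph, colorable, fun k d => ⟨fun e => ?_⟩⟩
  exact not_TF_indep (TF_of_homotopyEquiv e _ (TF_Wedge k d _))

end Pool.Agent.H129.LN
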