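import Pool.Agent.H129.LN.Zero

/-! Mayer-Vietoris lemmas for 2-torsion. -/

set_option autoImplicit false

namespace Pool.Agent.H129.LN

open Pool.Agent.Helper534.HB Finsupp

universe u v w

variable {X : Type u} [TopologicalSpace X] {Y : Type v} [TopologicalSpace Y]

/-- gluing back: if the connecting class bounds, the pieces become cycles -/
theorem fix_pieces (U V : Set X) (n : ℕ) (u : Sing U (n + 1) →₀ ℤ) (v : Sing V (n + 1) →₀ ℤ)
    (d : Sing ↥(U ∩ V) n →₀ ℤ) (hu : bdry U n u = push (inl U V) n d)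
    (hv : bdry V n v = - push (inr U V) n d) (hd : d ∈ Bdy ↥(U ∩ V) n) :
    ∃ u' ∈ Cyc U (n + 1), ∃ v' ∈ Cyc V (n + 1),
      push (sub U) (n + 1) u + push (sub V) (n + 1) v =
        push (sub U) (n + 1) u' + push (sub V) (n + 1) v' := by
  obtain ⟨e, rfl⟩ := hd
  refine ⟨u - push (inl U V) (n + 1) e, ?_, v + push (inr U V) (n + 1) e, ?_, ?_⟩
  · change bdry U n _ = 0
    rw [map_sub, hu, bdry_push, sub_self]
  · change bdry V n _ = 0
    rw [map_add, hv, bdry_push, neg_add_cancel]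
  · rw [map_sub, map_add, mvx_push_inl, mvx_push_inr]
    abel

theorem TF_of_cover_ctr (U V : Set X) (hU : IsOpen U) (hV : IsOpen V) (hUV : ∀ x, x ∈ U ∨ x ∈ V)
    (cU : Ctr U) (cV : Ctr V) (n : ℕ) (h : TF ↥(U ∩ V) n) : TF X (n + 1) := by
  intro z hz h2
  obtain ⟨u, v, d, hd, hzd, hu, hv⟩ := mv_split U V hU hV hUV n z hz
  have h3 : push (sub U) (n + 1) ((2 : ℤ) • u) + push (sub V) (n + 1) ((2 : ℤ) • v)
      ∈ Bdy X (n + 1) := by
    have := (Bdy X (n + 1)).sub_mem h2 ((Bdy X (n + 1)).smul_mem (2 : ℤ) hzd)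
    rw [smul_sub, sub_sub_cancel, smul_add] at this
    rwa [map_smul, map_smul]
  have h4 : d ∈ Bdy ↥(U ∩ V) n := by
    apply h d hd
    apply mv_conn U V hU hV hUV n ((2 : ℤ) • u) ((2 : ℤ) • v) _ _ _ h3
    · rw [map_smul, hu, map_smul]
    · rw [map_smul, hv, map_smul, smul_neg]
  obtain ⟨u', hu', v', hv', he⟩ := fix_pieces U V n u v d hu hv h4
  have h5 := push_mem_Bdy (sub U) _ _ (cU.bdy n u' hu')
  have h6 := push_mem_Bdy (sub V) _ _ (cV.bdy n v' hv')
  rw [he] at hzd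
  have := (Bdy X (n + 1)).add_mem hzd ((Bdy X (n + 1)).add_mem h5 h6)
  simpa using this

theorem TF_of_cover_inter (U V : Set X) (hU : IsOpen U) (hV : IsOpen V)
    (hUV : ∀ x, x ∈ U ∨ x ∈ V) (c : Ctr ↥(U ∩ V)) (n : ℕ) (tU : TF U (n + 1))
    (tV : TF V (n + 1)) : TF X (n + 1) := by
  intro z hz h2
  obtain ⟨u, v, d, hd, hzd, hu, hv⟩ := mv_split U V hU hV hUV n z hz
  have h4 : d ∈ Bdy ↥(U ∩ V) n := by
    cases n with
    | zero =>
      apply c.bdy_zero
      rw [← aug_push (inl U V), ← hu, aug_bdry]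
    | succ n => exact c.bdy n d hd
  obtain ⟨u', hu', v', hv', he⟩ := fix_pieces U V n u v d hu hv h4
  rw [he] at hzd
  have h3 : push (sub U) (n + 1) ((2 : ℤ) • u') + push (sub V) (n + 1) ((2 : ℤ) • v')
      ∈ Bdy X (n + 1) := by
    have := (Bdy X (n + 1)).sub_mem h2 ((Bdy X (n + 1)).smul_mem (2 : ℤ) hzd)
    rw [smul_sub, sub_sub_cancel, smul_add] at this
    rwa [map_smul, map_smul]
  obtain ⟨d', hd', h5, h6⟩ := mv_inj U V hU hV hUV (n + 1) _ _
    ((Cyc U (n + 1)).smul_mem (2 : ℤ) hu') ((Cyc V (n + 1)).smul_mem (2 : ℤ) hv') h3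
  have h7 := c.bdy n d' hd'
  have h8 : u' ∈ Bdy U (n + 1) := by
    apply tU u' hu'
    have := (Bdy U (n + 1)).add_mem h5 (push_mem_Bdy (inl U V) _ _ h7)
    simpa using this
  have h9 : v' ∈ Bdy V (n + 1) := by
    apply tV v' hv'
    have := (Bdy V (n + 1)).sub_mem h6 (push_mem_Bdy (inr U V) _ _ h7)
    simpa using this
  have := (Bdy X (n + 1)).add_mem hzd ((Bdy X (n + 1)).add_mem
    (push_mem_Bdy (sub U) _ _ h8) (push_mem_Bdy (sub V) _ _ h9))
  simpa using this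

end Pool.Agent.H129.LN
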