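import Pool.Agent.H129.LN.Collapse

/-! Replacing a path of length three between two nonadjacent vertices by merging its ends:
the independence complex loses a suspension. -/

set_option autoImplicit false

namespace Pool.Agent.H129.LN

open Pool.Agent.Helper534.HB Finsupp

/-- normalization -/
noncomputable def nz {N : ℕ} (v : Fin N → ℝ) : Fin N → ℝ := fun i => v i / ∑ j, v j

theorem nz_mem {N : ℕ} (v : Fin N → ℝ) (h0 : ∀ i, 0 ≤ v i) (h : 0 < ∑ j, v j) :
    nz v ∈ stdSimplex ℝ (Fin N) := by
  constructor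
  · intro i
    exact div_nonneg (h0 i) h.le
  · unfold nz
    rw [← Finset.sum_div, div_self h.ne']

theorem nz_ne {N : ℕ} (v : Fin N → ℝ) (h : 0 < ∑ j, v j) (i : Fin N) : nz v i ≠ 0 ↔ v i ≠ 0 := by
  unfold nz
  rw [Ne, div_eq_zero_iff, or_iff_left h.ne']

theorem nz_of {N : ℕ} (v : Fin N → ℝ) (h : ∑ j, v j = 1) : nz v = v := by
  funext i; simp [nz, h]

theorem continuous_nz {N : ℕ} {Y : Type*} [TopologicalSpace Y] (F : Y → Fin N → ℝ)
    (hF : Continuous F) (h : ∀ y, 0 < ∑ j, F y j) : Continuous (fun y => nz (F y)) := by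
  apply continuous_pi
  intro i
  unfold nz
  apply Continuous.div
  · exact (continuous_apply i).comp hF
  · exact continuous_finsetSum _ fun j _ => (continuous_apply j).comp hF
  · intro y; exact (h y).ne'

theorem sum_pos_of {N : ℕ} (v : Fin N → ℝ) (h0 : ∀ i, 0 ≤ v i) (i : Fin N) (hi : v i ≠ 0) :
    0 < ∑ j, v j :=
  Finset.sum_pos' (fun j _ => h0 j) ⟨i, Finset.mem_univ i, lt_of_le_of_ne (h0 i) (Ne.symm hi)⟩

theorem lt_iff {N : ℕ} (x : Fin N → ℝ) (hx : x ∈ stdSimplex ℝ (Fin N)) (p q : Fin N)
    (hpq : p ≠ q) : x p + x q < 1 ↔ ∃ i, i ≠ p ∧ i ≠ q ∧ x i ≠ 0 := by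
  have h1 : ∑ i, x i = x p + x q + ∑ i ∈ (Finset.univ.erase p).erase q, x i := by
    rw [← Finset.add_sum_erase _ _ (Finset.mem_univ p),
      ← Finset.add_sum_erase _ _ (Finset.mem_erase.mpr ⟨hpq.symm, Finset.mem_univ q⟩)]
    ring
  rw [hx.2] at h1
  constructor
  · intro h
    by_contra hcon
    push Not at hcon
    have : ∑ i ∈ (Finset.univ.erase p).erase q, x i = 0 := by
      apply Finset.sum_eq_zero
      intro i hi
      rw [Finset.mem_erase, Finset.mem_erase] at hi
      exact hcon i hi.2.1 hi.1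
    linarith
  · rintro ⟨i, hp, hq, hi⟩
    have : 0 < ∑ i ∈ (Finset.univ.erase p).erase q, x i :=
      Finset.sum_pos' (fun j _ => hx.1 j) ⟨i, by simp [hp, hq], lt_of_le_of_ne (hx.1 i) (Ne.symm hi)⟩
    linarith

/-- the complement of an edge, when the remaining vertices lie in a cone, is contractible -/
theorem Ctr_edge {N : ℕ} (E : Fin N → Fin N → Prop) (W : Fin N → Prop)
    (symm : ∀ i j, E i j → E j i) (p q w : Fin N) (hpq : p ≠ q) (hw : W w) (hwp : w ≠ p)
    (hwq : w ≠ q) (hN : ∀ s, W s → E w s → s = p ∨ s = q) :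
    Ctr {x : R (IP E W) | x.1 p + x.1 q < 1} := by
  have hww : ¬ E w w := fun e => by
    rcases hN w hw e with h | h
    · exact hwp h
    · exact hwq h
  -- scaled vector
  let c : R (IP E W) × unitInterval → Fin N → ℝ := fun z i =>
    (if i = p ∨ i = q then max 0 (1 - 2 * (z.2 : ℝ)) else 1) * z.1.1 i
  have hc0 : ∀ z i, 0 ≤ c z i := by
    intro z i
    apply mul_nonneg
    · split_ifs
      · exact le_max_left _ _
      · exact zero_le_one
    · exact z.1.2.1.1 i
  have hcc : Continuous c := by
    apply continuous_pi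
    intro i
    apply Continuous.mul
    · split_ifs
      · fun_prop
      · fun_prop
    · exact (continuous_apply i).comp (continuous_subtype_val.comp continuous_fst)
  let S : Set (R (IP E W)) := {x : R (IP E W) | x.1 p + x.1 q < 1}
  change Ctr S
  have hS : ∀ x : R (IP E W), x ∈ S ↔ ∃ i, i ≠ p ∧ i ≠ q ∧ x.1 i ≠ 0 := fun x =>
    lt_iff x.1 x.2.1 p q hpq
  have hcne : ∀ z : R (IP E W) × unitInterval, ∀ i, i ≠ p → i ≠ q → z.1.1 i ≠ 0 → c z i ≠ 0 := by
    intro z i h1 h2 h3
    simp only [c, h1, h2, or_self, if_false, one_mul]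
    exact h3
  have hcs : ∀ z : S × unitInterval, 0 < ∑ j, c (z.1.1, z.2) j := by
    intro z
    obtain ⟨i, h1, h2, h3⟩ := (hS z.1.1).mp z.1.2
    exact sum_pos_of _ (hc0 _) i (hcne (z.1.1, z.2) i h1 h2 h3)
  let bb : unitInterval → ℝ := fun t => max 0 (2 * (t : ℝ) - 1)
  have hb0 : ∀ t, 0 ≤ bb t := fun t => le_max_left _ _
  have hb1 : ∀ t, bb t ≤ 1 := fun t => max_le zero_le_one (by have := t.2.2; linarith)
  let Hf : S × unitInterval → Fin N → ℝ := fun z i =>
    (1 - bb z.2) * nz (c (z.1.1, z.2)) i + (if i = w then bb z.2 else 0)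
  have hHc : Continuous Hf := by
    apply continuous_pi
    intro i
    have h1 : Continuous fun z : S × unitInterval => nz (c (z.1.1, z.2)) :=
      continuous_nz _ (hcc.comp (by fun_prop)) hcs
    have h2 : Continuous fun z : S × unitInterval => bb z.2 := by
      simp only [bb]; fun_prop
    apply Continuous.add
    · exact (continuous_const.sub h2).mul ((continuous_apply i).comp h1)
    · split_ifs
      · exact h2
      · fun_prop
  have hH1 : ∀ z, Hf z ∈ stdSimplex ℝ (Fin N) := by
    intro z
    have h1 := nz_mem _ (hc0 (z.1.1, z.2)) (hcs z)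
    constructor
    · intro i
      apply add_nonneg
      · exact mul_nonneg (sub_nonneg.mpr (hb1 _)) (h1.1 i)
      · split_ifs
        · exact hb0 _
        · exact le_rfl
    · simp only [Hf]
      rw [Finset.sum_add_distrib, ← Finset.mul_sum, h1.2, Finset.sum_ite_eq']
      simp
  have hHs : ∀ z, IP E W {i | Hf z i ≠ 0} := by
    intro z
    by_cases hb : bb z.2 = 0
    · refine z.1.1.2.2.down ?_
      intro i hi h0
      apply hi
      have : c (z.1.1, z.2) i = 0 := by
        simp only [c]
        rw [h0, mul_zero]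
      simp [Hf, hb, nz, this]
    · have hb' : 0 < bb z.2 := lt_of_le_of_ne (hb0 _) (Ne.symm hb)
      have ht : (1 - 2 * (z.2 : ℝ)) ≤ 0 := by
        by_contra hcon
        push Not at hcon
        have : bb z.2 = 0 := max_eq_left (by linarith)
        exact hb this
      have hIP : IP E W ({i | z.1.1.1 i ≠ 0} \ {p, q}) := z.1.1.2.2.down Set.sdiff_subset
      have hins := hIP.insert symm w hw hww (by
        rintro i ⟨hi, hi2⟩ e
        apply hi2
        rcases hN i (z.1.1.2.2.1 i hi) e with h | h
        · left; exact h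
        · right; exact h)
      refine hins.down ?_
      intro i hi
      by_cases hiw : i = w
      · left; exact hiw
      · right
        constructor
        · intro h0
          apply hi
          have h0' : z.1.1.1 i = 0 := h0
          have : c (z.1.1, z.2) i = 0 := by
            simp only [c]
            rw [h0', mul_zero]
          simp [Hf, hiw, nz, this]
        · rintro (h | h)
          · apply hi
            have : c (z.1.1, z.2) i = 0 := by
              simp only [c, h, true_or, if_true]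
              rw [max_eq_left ht, zero_mul]
            simp [Hf, hiw, nz, this]
          · apply hi
            have h' : i = q := h
            have : c (z.1.1, z.2) i = 0 := by
              simp only [c, h', or_true, if_true]
              rw [max_eq_left ht, zero_mul]
            simp [Hf, hiw, nz, this]
  have hHw : ∀ z, bb z.2 ≠ 0 → Hf z w ≠ 0 := by
    intro z hb
    have hb' : 0 < bb z.2 := lt_of_le_of_ne (hb0 _) (Ne.symm hb)
    have h1 := nz_mem _ (hc0 (z.1.1, z.2)) (hcs z)
    have h2 : 0 ≤ (1 - bb z.2) * nz (c (z.1.1, z.2)) w :=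
      mul_nonneg (sub_nonneg.mpr (hb1 _)) (h1.1 w)
    simp only [Hf, if_true]
    linarith
  have hHS : ∀ z, (⟨Hf z, hH1 z, hHs z⟩ : R (IP E W)) ∈ S := by
    intro z
    rw [hS]
    by_cases hb : bb z.2 = 0
    · obtain ⟨i, h1, h2, h3⟩ := (hS z.1.1).mp z.1.2
      refine ⟨i, h1, h2, ?_⟩
      have h4 := (nz_ne _ (hcs z) i).mpr (hcne (z.1.1, z.2) i h1 h2 h3)
      simp only [Hf, hb, sub_zero, one_mul]
      have : (if i = w then (0 : ℝ) else 0) = 0 := by split_ifs <;> rfl
      rw [this, add_zero]
      exact h4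
    · exact ⟨w, hwp, hwq, hHw z hb⟩
  have hew : (Pi.single w (1 : ℝ) : Fin N → ℝ) ∈ stdSimplex ℝ (Fin N) := single_mem_stdSimplex ℝ w
  have hsupp : ∀ i, (Pi.single w (1 : ℝ) : Fin N → ℝ) i ≠ 0 → i = w := by
    intro i hi
    by_contra h
    exact hi (Pi.single_eq_of_ne h 1)
  let x0 : R (IP E W) := ⟨Pi.single w 1, hew, by
    constructor
    · intro i hi
      rw [hsupp i hi]; exact hw
    · intro i hi j hj
      rw [hsupp i hi, hsupp j hj]; exact hww⟩
  refine ⟨⟨x0, (hS x0).mpr ⟨w, hwp, hwq, by simp [x0]⟩⟩,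
    ⟨fun z => ⟨⟨Hf z, hH1 z, hHs z⟩, hHS z⟩, ?_⟩, ?_, ?_⟩
  · apply Continuous.subtype_mk
    apply Continuous.subtype_mk
    exact hHc
  · intro x
    apply Subtype.ext
    apply Subtype.ext
    funext i
    have hb : bb (0 : unitInterval) = 0 := by simp [bb]
    have hcx : c (x.1, 0) = x.1.1 := by
      funext i
      simp only [c]
      split_ifs <;> simp
    change (1 - bb 0) * nz (c (x.1, 0)) i + (if i = w then bb 0 else 0) = x.1.1 i
    rw [hb, hcx, nz_of _ x.1.2.1.2]
    simp
  · intro x
    apply Subtype.ext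
    apply Subtype.ext
    funext i
    have hb : bb (1 : unitInterval) = 1 := by simp only [bb]; norm_num
    change (1 - bb 1) * nz (c (x.1, 1)) i + (if i = w then bb 1 else 0) =
      (Pi.single w (1 : ℝ) : Fin N → ℝ) i
    rw [hb, Pi.single_apply]
    simp

end Pool.Agent.H129.LN
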