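import Pool.Agent.H129.LN.P4

/-! The path move on independence complexes. -/

set_option autoImplicit false

namespace Pool.Agent.H129.LN

open Pool.Agent.Helper534.HB Finsupp

/-- the map to the merged complex, unnormalized -/
noncomputable def ph {N : ℕ} (v1 v2 w1 w2 : Fin N) (x : Fin N → ℝ) (i : Fin N) : ℝ :=
  if i = v1 then 2 * min (x v1) (x v2) else if i = w1 ∨ i = w2 ∨ i = v2 then 0 else x i

/-- the map back -/
noncomputable def ps {N : ℕ} (v1 v2 : Fin N) (y : Fin N → ℝ) (i : Fin N) : ℝ :=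
  y i + ((if i = v2 then y v1 / 2 else 0) - (if i = v1 then y v1 / 2 else 0))

theorem continuous_ph {N : ℕ} (v1 v2 w1 w2 : Fin N) : Continuous (ph v1 v2 w1 w2) := by
  apply continuous_pi
  intro i
  unfold ph
  split_ifs
  · fun_prop
  · fun_prop
  · fun_prop

theorem continuous_ps {N : ℕ} (v1 v2 : Fin N) : Continuous (ps v1 v2) := by
  apply continuous_pi
  intro i
  unfold ps
  apply Continuous.add (by fun_prop)
  apply Continuous.sub
  · split_ifs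
    · fun_prop
    · fun_prop
  · split_ifs
    · fun_prop
    · fun_prop

theorem ps_sum {N : ℕ} (v1 v2 : Fin N) (y : Fin N → ℝ) : ∑ i, ps v1 v2 y i = ∑ i, y i := by
  unfold ps
  rw [Finset.sum_add_distrib, Finset.sum_sub_distrib, Finset.sum_ite_eq', Finset.sum_ite_eq']
  simp

theorem ph_nonneg {N : ℕ} (v1 v2 w1 w2 : Fin N) (x : Fin N → ℝ) (hx : ∀ i, 0 ≤ x i) (i : Fin N) :
    0 ≤ ph v1 v2 w1 w2 x i := by
  unfold ph
  split_ifs
  · have := le_min (hx v1) (hx v2)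
    positivity
  · exact le_rfl
  · exact hx i

theorem ps_nonneg {N : ℕ} (v1 v2 : Fin N) (hv : v1 ≠ v2) (y : Fin N → ℝ) (hy : ∀ i, 0 ≤ y i)
    (i : Fin N) : 0 ≤ ps v1 v2 y i := by
  unfold ps
  have h1 := hy i
  have h2 := hy v1
  by_cases h : i = v1
  · subst h
    rw [if_neg hv, if_pos rfl]
    linarith
  · rw [if_neg h]
    split_ifs
    · linarith
    · linarith

theorem not_TF_inter {N : ℕ} (E E' : Fin N → Fin N → Prop) (W W' : Fin N → Prop)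
    (v1 v2 w1 w2 : Fin N) (hv : v1 ≠ v2) (hW1 : W v1) (hW2 : W v2)
    (h11 : v1 ≠ w1) (h12 : v1 ≠ w2) (h21 : v2 ≠ w1) (h22 : v2 ≠ w2) (hww : w1 ≠ w2)
    (e1 : E w1 w2) (e2 : E v1 w1) (e3 : E w2 v2) (hvv : ¬ E v2 v2) (n : ℕ)
    (hE' : ∀ i j, E' i j ↔ E i j ∨ (i = v1 ∧ E v2 j) ∨ (j = v1 ∧ E i v2))
    (hW' : ∀ i, W' i ↔ W i ∧ i ≠ w1 ∧ i ≠ w2 ∧ i ≠ v2)
    (h : ¬ TF (R (IP E' W')) n) :
    ¬ TF ↥({x : R (IP E W) | x.1 w2 + x.1 v1 < 1} ∩ {x : R (IP E W) | x.1 w1 + x.1 v2 < 1}) n := by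
  let S : Set (R (IP E W)) :=
    {x : R (IP E W) | x.1 w2 + x.1 v1 < 1} ∩ {x : R (IP E W) | x.1 w1 + x.1 v2 < 1}
  change ¬ TF S n
  have hS : ∀ x : R (IP E W), x ∈ S ↔ (∃ i, i ≠ w2 ∧ i ≠ v1 ∧ x.1 i ≠ 0) ∧
      (∃ i, i ≠ w1 ∧ i ≠ v2 ∧ x.1 i ≠ 0) := fun x =>
    and_congr (lt_iff x.1 x.2.1 w2 v1 h12.symm) (lt_iff x.1 x.2.1 w1 v2 h21.symm)
  -- the composite support
  set F := ph v1 v2 w1 w2 with hF
  have hFx : ∀ x : Fin N → ℝ, ∀ i, i ≠ v1 → i ≠ v2 → i ≠ w1 → i ≠ w2 → F x i = x i := by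
    intro x i a b c d
    simp [hF, ph, a, b, c, d]
  have hF1 : ∀ x : Fin N → ℝ, F x v1 = 2 * min (x v1) (x v2) := fun x => by simp [hF, ph]
  have hF2 : ∀ x : Fin N → ℝ, F x v2 = 0 := fun x => by simp [hF, ph, hv.symm]
  have hF3 : ∀ x : Fin N → ℝ, F x w1 = 0 := fun x => by simp [hF, ph, h11.symm]
  have hF4 : ∀ x : Fin N → ℝ, F x w2 = 0 := fun x => by simp [hF, ph, h12.symm]
  have hP1 : ∀ y : Fin N → ℝ, ps v1 v2 y v1 = y v1 / 2 := fun y => by
    simp [ps, hv]; ring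
  have hP2 : ∀ y : Fin N → ℝ, ps v1 v2 y v2 = y v2 + y v1 / 2 := fun y => by
    simp [ps, hv.symm]
  have hPi : ∀ y : Fin N → ℝ, ∀ i, i ≠ v1 → i ≠ v2 → ps v1 v2 y i = y i := fun y i a b => by
    simp [ps, a, b]
  -- support facts for x in S
  have hsup : ∀ x ∈ S, ∃ i, i ≠ v1 ∧ i ≠ v2 ∧ i ≠ w1 ∧ i ≠ w2 ∧ x.1 i ≠ 0 ∨
      (x.1 v1 ≠ 0 ∧ x.1 v2 ≠ 0) := by
    intro x hx
    obtain ⟨⟨i, hi1, hi2, hi⟩, ⟨j, hj1, hj2, hj⟩⟩ := (hS x).mp hx
    by_cases a : i = w1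
    · subst a
      -- w1 in support; j is not w1, v2; j ≠ w2 (adjacent), j ≠ v1 (adjacent)
      refine ⟨j, Or.inl ⟨?_, hj2, hj1, ?_, hj⟩⟩
      · rintro rfl; exact x.2.2.2 _ hj _ hi e2
      · rintro rfl; exact x.2.2.2 _ hi _ hj e1
    · by_cases b : i = v2
      · subst b
        by_cases c : j = v1
        · subst c; exact ⟨j, Or.inr ⟨hj, hi⟩⟩
        · refine ⟨j, Or.inl ⟨c, hj2, hj1, ?_, hj⟩⟩
          rintro rfl; exact x.2.2.2 _ hj _ hi e3
      · exact ⟨i, Or.inl ⟨hi2, b, a, hi1, hi⟩⟩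
  have hG : ∀ x ∈ S, (∃ i, i ≠ w2 ∧ i ≠ v1 ∧ ps v1 v2 (F x.1) i ≠ 0) ∧
      (∃ i, i ≠ w1 ∧ i ≠ v2 ∧ ps v1 v2 (F x.1) i ≠ 0) := by
    intro x hx
    obtain ⟨i, ⟨a, b, c, d, hi⟩ | ⟨a, b⟩⟩ := hsup x hx
    · have : ps v1 v2 (F x.1) i ≠ 0 := by rw [hPi _ _ a b, hFx _ _ a b c d]; exact hi
      exact ⟨⟨i, d, a, this⟩, ⟨i, c, b, this⟩⟩
    · have hpos : 0 < min (x.1 v1) (x.1 v2) :=
        lt_min (lt_of_le_of_ne (x.2.1.1 v1) (Ne.symm a)) (lt_of_le_of_ne (x.2.1.1 v2) (Ne.symm b))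
      refine ⟨⟨v2, h22, hv.symm, ?_⟩, ⟨v1, h11, hv, ?_⟩⟩
      · rw [hP2, hF2, hF1]
        have : (0 : ℝ) < 0 + 2 * min (x.1 v1) (x.1 v2) / 2 := by positivity
        exact this.ne'
      · rw [hP1, hF1]
        have : (0 : ℝ) < 2 * min (x.1 v1) (x.1 v2) / 2 := by positivity
        exact this.ne'
  have hFsupp : ∀ x : R (IP E W), ∀ i, F x.1 i ≠ 0 → x.1 i ≠ 0 ∧ i ≠ w1 ∧ i ≠ w2 ∧ i ≠ v2 ∧
      (i = v1 → x.1 v2 ≠ 0) := by
    intro x i hi
    by_cases a : i = v1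
    · subst a
      rw [hF1] at hi
      have : min (x.1 i) (x.1 v2) ≠ 0 := fun e => hi (by rw [e, mul_zero])
      have hpos : 0 < min (x.1 i) (x.1 v2) :=
        lt_of_le_of_ne (le_min (x.2.1.1 i) (x.2.1.1 v2)) (Ne.symm this)
      exact ⟨(lt_of_lt_of_le hpos (min_le_left _ _)).ne', h11, h12, hv,
        fun _ => (lt_of_lt_of_le hpos (min_le_right _ _)).ne'⟩
    · have b : i ≠ v2 := by rintro rfl; exact hi (hF2 _)
      have c : i ≠ w1 := by rintro rfl; exact hi (hF3 _)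
      have d : i ≠ w2 := by rintro rfl; exact hi (hF4 _)
      rw [hFx _ _ a b c d] at hi
      exact ⟨hi, c, d, b, fun e => absurd e a⟩
  have hGsupp : ∀ x : R (IP E W), ∀ i, ps v1 v2 (F x.1) i ≠ 0 → x.1 i ≠ 0 := by
    intro x i hi
    by_cases a : i = v1
    · subst a
      rw [hP1] at hi
      exact (hFsupp x i (fun e => hi (by rw [e, zero_div]))).1
    · by_cases b : i = v2
      · subst b
        rw [hP2, hF2] at hi
        exact (hFsupp x v1 (fun e => hi (by rw [e]; simp))).2.2.2.2 rfl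
      · rw [hPi _ _ a b] at hi
        exact (hFsupp x i hi).1
  have hF0 : ∀ x : R (IP E W), ∀ i, 0 ≤ F x.1 i := fun x => ph_nonneg _ _ _ _ _ x.2.1.1
  have hG0 : ∀ x : R (IP E W), ∀ i, 0 ≤ ps v1 v2 (F x.1) i := fun x => ps_nonneg _ _ hv _ (hF0 x)
  have hFs : ∀ x : S, 0 < ∑ j, F x.1.1 j := by
    intro x
    obtain ⟨⟨i, _, _, hi⟩, _⟩ := hG x.1 x.2
    rw [← ps_sum v1 v2]
    exact sum_pos_of _ (hG0 x.1) i hi
  -- forward map
  let f : C(S, R (IP E' W')) := ⟨fun x => ⟨nz (F x.1.1), nz_mem _ (hF0 x.1) (hFs x), by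
    constructor
    · intro i hi
      have h1 := hFsupp x.1 i ((nz_ne _ (hFs x) i).mp hi)
      rw [hW']
      exact ⟨x.1.2.2.1 i h1.1, h1.2.1, h1.2.2.1, h1.2.2.2.1⟩
    · intro i hi j hj e
      have h1 := hFsupp x.1 i ((nz_ne _ (hFs x) i).mp hi)
      have h2 := hFsupp x.1 j ((nz_ne _ (hFs x) j).mp hj)
      rcases (hE' i j).mp e with e | ⟨rfl, e⟩ | ⟨rfl, e⟩
      · exact x.1.2.2.2 i h1.1 j h2.1 e
      · exact x.1.2.2.2 _ (h1.2.2.2.2 rfl) j h2.1 e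
      · exact x.1.2.2.2 i h1.1 _ (h2.2.2.2.2 rfl) e⟩, by
    apply Continuous.subtype_mk
    apply continuous_nz _ _ hFs
    exact (continuous_ph _ _ _ _).comp (continuous_subtype_val.comp continuous_subtype_val)⟩
  -- backward map
  have hy2 : ∀ y : R (IP E' W'), y.1 v2 = 0 := by
    intro y
    by_contra hcon
    exact ((hW' v2).mp (y.2.2.1 v2 hcon)).2.2.2 rfl
  have hyw1 : ∀ y : R (IP E' W'), y.1 w1 = 0 := by
    intro y
    by_contra hcon
    exact ((hW' w1).mp (y.2.2.1 w1 hcon)).2.1 rfl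
  have hyw2 : ∀ y : R (IP E' W'), y.1 w2 = 0 := by
    intro y
    by_contra hcon
    exact ((hW' w2).mp (y.2.2.1 w2 hcon)).2.2.1 rfl
  have hgs : ∀ y : R (IP E' W'), ∀ i, ps v1 v2 y.1 i ≠ 0 → (i ≠ v2 ∧ y.1 i ≠ 0) ∨
      (i = v2 ∧ y.1 v1 ≠ 0) := by
    intro y i hi
    by_cases a : i = v1
    · subst a
      rw [hP1] at hi
      exact Or.inl ⟨hv, fun e => hi (by rw [e, zero_div])⟩
    · by_cases b : i = v2
      · subst b
        rw [hP2, hy2, zero_add] at hi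
        exact Or.inr ⟨rfl, fun e => hi (by rw [e, zero_div])⟩
      · rw [hPi _ _ a b] at hi
        exact Or.inl ⟨b, hi⟩
  have hgmem : ∀ y : R (IP E' W'), ps v1 v2 y.1 ∈ stdSimplex ℝ (Fin N) := fun y =>
    ⟨ps_nonneg _ _ hv _ y.2.1.1, (ps_sum v1 v2 y.1).trans y.2.1.2⟩
  have hgIP : ∀ y : R (IP E' W'), IP E W {i | ps v1 v2 y.1 i ≠ 0} := by
    intro y
    constructor
    · intro i hi
      rcases hgs y i hi with ⟨_, h1⟩ | ⟨h1, _⟩
      · exact ((hW' i).mp (y.2.2.1 i h1)).1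
      · rw [h1]; exact hW2
    · intro i hi j hj e
      rcases hgs y i hi with ⟨_, h1⟩ | ⟨h1, h1'⟩
      · rcases hgs y j hj with ⟨_, h2⟩ | ⟨h2, h2'⟩
        · exact y.2.2.2 i h1 j h2 ((hE' i j).mpr (Or.inl e))
        · rw [h2] at e
          exact y.2.2.2 i h1 v1 h2' ((hE' i v1).mpr (Or.inr (Or.inr ⟨rfl, e⟩)))
      · rw [h1] at e
        rcases hgs y j hj with ⟨_, h2⟩ | ⟨h2, h2'⟩
        · exact y.2.2.2 v1 h1' j h2 ((hE' v1 j).mpr (Or.inr (Or.inl ⟨rfl, e⟩)))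
        · rw [h2] at e
          exact hvv e
  have hgS : ∀ y : R (IP E' W'), (⟨ps v1 v2 y.1, hgmem y, hgIP y⟩ : R (IP E W)) ∈ S := by
    intro y
    rw [hS]
    obtain ⟨i, hi⟩ : ∃ i, y.1 i ≠ 0 := by
      by_contra hcon
      push Not at hcon
      have := y.2.1.2
      rw [Finset.sum_eq_zero (fun i _ => hcon i)] at this
      exact zero_ne_one this
    have hi1 : i ≠ w1 := by rintro rfl; exact hi (hyw1 y)
    have hi2 : i ≠ w2 := by rintro rfl; exact hi (hyw2 y)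
    have hi3 : i ≠ v2 := by rintro rfl; exact hi (hy2 y)
    by_cases a : i = v1
    · subst a
      refine ⟨⟨v2, h22, hv.symm, ?_⟩, ⟨i, hi1, hi3, ?_⟩⟩
      · change ps i v2 y.1 v2 ≠ 0
        rw [hP2, hy2, zero_add]
        exact div_ne_zero hi two_ne_zero
      · change ps i v2 y.1 i ≠ 0
        rw [hP1]
        exact div_ne_zero hi two_ne_zero
    · have : ps v1 v2 y.1 i ≠ 0 := by rw [hPi _ _ a hi3]; exact hi
      exact ⟨⟨i, hi2, a, this⟩, ⟨i, hi1, hi3, this⟩⟩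
  let g : C(R (IP E' W'), S) := ⟨fun y => ⟨⟨ps v1 v2 y.1, hgmem y, hgIP y⟩, hgS y⟩, by
    apply Continuous.subtype_mk
    apply Continuous.subtype_mk
    exact (continuous_ps _ _).comp continuous_subtype_val⟩
  -- the homotopy on S
  let Kt : S × unitInterval → Fin N → ℝ := fun z i =>
    (1 - (z.2 : ℝ)) * z.1.1.1 i + (z.2 : ℝ) * ps v1 v2 (F z.1.1.1) i
  have hK0 : ∀ z i, 0 ≤ Kt z i := fun z i =>
    add_nonneg (mul_nonneg (sub_nonneg.mpr z.2.2.2) (z.1.1.2.1.1 i))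
      (mul_nonneg z.2.2.1 (hG0 z.1.1 i))
  have hKsupp : ∀ z i, Kt z i ≠ 0 → z.1.1.1 i ≠ 0 := by
    intro z i hi h0
    have h1 : ps v1 v2 (F z.1.1.1) i = 0 := by
      by_contra hcon
      exact hGsupp z.1.1 i hcon h0
    apply hi
    simp only [Kt]
    rw [h0, h1, mul_zero, mul_zero, add_zero]
  have hKne : ∀ z i, ps v1 v2 (F z.1.1.1) i ≠ 0 → Kt z i ≠ 0 := by
    intro z i hi
    have h1 : 0 < ps v1 v2 (F z.1.1.1) i := lt_of_le_of_ne (hG0 z.1.1 i) (Ne.symm hi)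
    have h2 : 0 < z.1.1.1 i :=
      lt_of_le_of_ne (z.1.1.2.1.1 i) (Ne.symm (hGsupp z.1.1 i hi))
    have ht0 := z.2.2.1
    have ht1 := z.2.2.2
    apply ne_of_gt
    simp only [Kt]
    by_cases a : (z.2 : ℝ) = 0
    · rw [a]; linarith
    · have h3 : 0 < (z.2 : ℝ) := lt_of_le_of_ne ht0 (Ne.symm a)
      have h4 := mul_pos h3 h1
      have h5 := mul_nonneg (sub_nonneg.mpr ht1) h2.le
      linarith
  have hKs : ∀ z, 0 < ∑ j, Kt z j := by
    intro z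
    obtain ⟨⟨i, _, _, hi⟩, _⟩ := hG z.1.1 z.1.2
    exact sum_pos_of _ (hK0 z) i (hKne z i hi)
  have hKc : Continuous Kt := by
    apply continuous_pi
    intro i
    have h1 : Continuous fun z : S × unitInterval => ps v1 v2 (F z.1.1.1) i :=
      (continuous_apply i).comp ((continuous_ps v1 v2).comp ((continuous_ph v1 v2 w1 w2).comp
        (continuous_subtype_val.comp (continuous_subtype_val.comp continuous_fst))))
    have h2 : Continuous fun z : S × unitInterval => z.1.1.1 i :=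
      (continuous_apply i).comp
        (continuous_subtype_val.comp (continuous_subtype_val.comp continuous_fst))
    have h3 : Continuous fun z : S × unitInterval => (z.2 : ℝ) := by fun_prop
    exact ((continuous_const.sub h3).mul h2).add (h3.mul h1)
  have hKIP : ∀ z, IP E W {i | nz (Kt z) i ≠ 0} := fun z =>
    z.1.1.2.2.down fun i hi => hKsupp z i ((nz_ne _ (hKs z) i).mp hi)
  have hKS : ∀ z, (⟨nz (Kt z), nz_mem _ (hK0 z) (hKs z), hKIP z⟩ : R (IP E W)) ∈ S := by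
    intro z
    rw [hS]
    obtain ⟨⟨i, a, b, hi⟩, ⟨j, c, d, hj⟩⟩ := hG z.1.1 z.1.2
    exact ⟨⟨i, a, b, (nz_ne _ (hKs z) i).mpr (hKne z i hi)⟩,
      ⟨j, c, d, (nz_ne _ (hKs z) j).mpr (hKne z j hj)⟩⟩
  let K : C(S × unitInterval, S) := ⟨fun z => ⟨⟨nz (Kt z), nz_mem _ (hK0 z) (hKs z), hKIP z⟩,
    hKS z⟩, by
    apply Continuous.subtype_mk
    apply Continuous.subtype_mk
    exact continuous_nz _ hKc hKs⟩
  rw [TF_iff_of_HE (f := f)]
  · exact h
  · refine HE_of_homotopyEquiv f g K ⟨Prod.fst, continuous_fst⟩ ?_ ?_ (fun _ => rfl) ?_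
    · intro x
      apply Subtype.ext
      apply Subtype.ext
      change nz (Kt (x, 0)) = x.1.1
      have : Kt (x, 0) = x.1.1 := by
        funext i; simp [Kt]
      rw [this, nz_of _ x.1.2.1.2]
    · intro x
      apply Subtype.ext
      apply Subtype.ext
      change nz (Kt (x, 1)) = ps v1 v2 (nz (F x.1.1))
      have : Kt (x, 1) = ps v1 v2 (F x.1.1) := by
        funext i; simp [Kt]
      rw [this]
      funext i
      unfold nz
      rw [ps_sum]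
      simp only [ps]
      split_ifs <;> ring
    · intro y
      apply Subtype.ext
      change y.1 = nz (F (ps v1 v2 y.1))
      have : F (ps v1 v2 y.1) = y.1 := by
        funext i
        by_cases a : i = v1
        · subst a
          rw [hF1, hP1, hP2, hy2, zero_add, min_self]
          ring
        · by_cases b : i = v2
          · subst b; rw [hF2, hy2]
          · by_cases c : i = w1
            · subst c; rw [hF3, hyw1]
            · by_cases d : i = w2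
              · subst d; rw [hF4, hyw2]
              · rw [hFx _ _ a b c d, hPi _ _ a b]
      rw [this, nz_of _ y.2.1.2]

/-- the path move -/
theorem p4_step {N : ℕ} (E E' : Fin N → Fin N → Prop) (W W' : Fin N → Prop)
    (symm : ∀ i j, E i j → E j i)
    (v1 v2 w1 w2 : Fin N) (hv : v1 ≠ v2) (hW1 : W v1) (hW2 : W v2) (hWw1 : W w1) (hWw2 : W w2)
    (h11 : v1 ≠ w1) (h12 : v1 ≠ w2) (h21 : v2 ≠ w1) (h22 : v2 ≠ w2) (hww : w1 ≠ w2)
    (e1 : E w1 w2) (e2 : E v1 w1) (e3 : E w2 v2) (hvv : ¬ E v2 v2)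
    (hN1 : ∀ s, W s → E w1 s → s = w2 ∨ s = v1) (hN2 : ∀ s, W s → E w2 s → s = w1 ∨ s = v2)
    (n : ℕ)
    (hE' : ∀ i j, E' i j ↔ E i j ∨ (i = v1 ∧ E v2 j) ∨ (j = v1 ∧ E i v2))
    (hW' : ∀ i, W' i ↔ W i ∧ i ≠ w1 ∧ i ≠ w2 ∧ i ≠ v2)
    (h : ¬ TF (R (IP E' W')) (n + 1)) : ¬ TF (R (IP E W)) (n + 2) := by
  refine not_TF_of_cover {x : R (IP E W) | x.1 w2 + x.1 v1 < 1}
    {x : R (IP E W) | x.1 w1 + x.1 v2 < 1} ?_ ?_ ?_
    (Ctr_edge E W symm w2 v1 w1 h12.symm hWw1 hww h11.symm hN1)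
    (Ctr_edge E W symm w1 v2 w2 h21.symm hWw2 hww.symm h22.symm hN2) n
    (not_TF_inter E E' W W' v1 v2 w1 w2 hv hW1 hW2 h11 h12 h21 h22 hww e1 e2 e3 hvv _ hE' hW' h)
  · exact isOpen_lt (((continuous_apply w2).comp continuous_subtype_val).add
      ((continuous_apply v1).comp continuous_subtype_val)) continuous_const
  · exact isOpen_lt (((continuous_apply w1).comp continuous_subtype_val).add
      ((continuous_apply v2).comp continuous_subtype_val)) continuous_const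
  · intro x
    by_contra hcon
    push Not at hcon
    obtain ⟨c1, c2⟩ := hcon
    have c1' : ¬ (x.1 w2 + x.1 v1 < 1) := c1
    have c2' : ¬ (x.1 w1 + x.1 v2 < 1) := c2
    rw [lt_iff x.1 x.2.1 _ _ h12.symm] at c1'
    rw [lt_iff x.1 x.2.1 _ _ h21.symm] at c2'
    push Not at c1' c2'
    obtain ⟨i, hi⟩ : ∃ i, x.1 i ≠ 0 := by
      by_contra hcon
      push Not at hcon
      have := x.2.1.2
      rw [Finset.sum_eq_zero (fun i _ => hcon i)] at this
      exact zero_ne_one this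
    by_cases a : i = w2
    · subst a
      exact hi (c2' i hww.symm h22.symm)
    · by_cases b : i = v1
      · subst b
        exact hi (c2' i h11 hv)
      · exact hi (c1' i a b)

end Pool.Agent.H129.LN
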