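import Pool.Agent.H129.LN.MV2

/-! The homology of spheres and wedges of spheres has no 2-torsion. -/

set_option autoImplicit false

namespace Pool.Agent.H129.LN

open Pool.Agent.Helper534.HB Finsupp Metric

universe u v w

/-- the unit sphere in `ℝ^m` -/
abbrev SS (m : ℕ) : Type := sphere (0 : EuclideanSpace ℝ (Fin m)) 1

/-- first basis vector -/
noncomputable def e0 (m : ℕ) : EuclideanSpace ℝ (Fin (m + 1)) := EuclideanSpace.single 0 1

theorem e0_zero (m : ℕ) : e0 m 0 = 1 := by simp [e0]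

theorem e0_succ (m : ℕ) (i : Fin m) : e0 m i.succ = 0 := by simp [e0]

theorem norm_e0 (m : ℕ) : ‖e0 m‖ = 1 := by simp [e0]

theorem sq_sum {m : ℕ} (x : EuclideanSpace ℝ (Fin m)) : ‖x‖ ^ 2 = ∑ i, x i ^ 2 :=
  EuclideanSpace.real_norm_sq_eq x

theorem SS_sq {m : ℕ} (x : SS m) : ∑ i, x.1 i ^ 2 = 1 := by
  have h : ‖x.1‖ = 1 := by simpa using x.2
  rw [← sq_sum, h]; norm_num

/-- normalization of a nowhere vanishing continuous map -/
noncomputable def nrm {X : Type u} [TopologicalSpace X] {m : ℕ} (f : X → EuclideanSpace ℝ (Fin m))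
    (hf : ∀ x, f x ≠ 0) (x : X) : SS m :=
  ⟨‖f x‖⁻¹ • f x, by
    have : ‖f x‖ ≠ 0 := norm_ne_zero_iff.mpr (hf x)
    simp [norm_smul, this]⟩

theorem continuous_nrm {X : Type u} [TopologicalSpace X] {m : ℕ}
    (f : X → EuclideanSpace ℝ (Fin m)) (hf : ∀ x, f x ≠ 0) (hc : Continuous f) :
    Continuous (nrm f hf) := by
  apply Continuous.subtype_mk
  exact (hc.norm.inv₀ fun x => norm_ne_zero_iff.mpr (hf x)).smul hc

theorem nrm_of_mem {X : Type u} [TopologicalSpace X] {m : ℕ}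
    (f : X → EuclideanSpace ℝ (Fin m)) (hf : ∀ x, f x ≠ 0) (x : X) (y : SS m) (h : f x = y.1) :
    nrm f hf x = y := by
  apply Subtype.ext
  have h1 : ‖y.1‖ = 1 := by simpa using y.2
  simp [nrm, h, h1]

/-- linear combinations with `e0` do not vanish away from `-e0` -/
theorem comb_ne {m : ℕ} (x : SS (m + 1)) (hx : -1 < x.1 0) (t : unitInterval) :
    (1 - (t : ℝ)) • x.1 + (t : ℝ) • e0 m ≠ 0 := by
  intro h
  have h0 := congrArg (fun v : EuclideanSpace ℝ (Fin (m + 1)) => v 0) h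
  have hs : ∀ i : Fin m, (1 - (t : ℝ)) * x.1 i.succ = 0 := by
    intro i
    have := congrArg (fun v : EuclideanSpace ℝ (Fin (m + 1)) => v i.succ) h
    simpa [e0_succ] using this
  have h0' : (1 - (t : ℝ)) * x.1 0 + t = 0 := by simpa [e0_zero] using h0
  have ht0 := t.2.1
  have ht1 := t.2.2
  by_cases h1 : (1 - (t : ℝ)) = 0
  · rw [h1] at h0'
    have : (t : ℝ) = 1 := by linarith
    linarith
  · have h2 : ∀ i : Fin m, x.1 i.succ = 0 := fun i => (mul_eq_zero.mp (hs i)).resolve_left h1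
    have h3 := SS_sq x
    rw [Fin.sum_univ_succ] at h3
    simp only [h2] at h3
    have h4 : x.1 0 ^ 2 = 1 := by simpa using h3
    have h5 : x.1 0 = 1 := by
      have : (x.1 0 - 1) * (x.1 0 + 1) = 0 := by ring_nf; linarith
      rcases mul_eq_zero.mp this with h | h
      · linarith
      · linarith
    rw [h5] at h0'
    linarith

/-- the contraction of the sphere minus a point -/
noncomputable def hc {m : ℕ} : {x : SS (m + 1) // -1 < x.1 0} × unitInterval → SS (m + 1) :=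
  nrm (fun p => (1 - (p.2 : ℝ)) • p.1.1.1 + (p.2 : ℝ) • e0 m) fun p => comb_ne p.1.1 p.1.2 p.2

theorem continuous_hc {m : ℕ} : Continuous (hc (m := m)) := by
  apply continuous_nrm
  fun_prop

theorem hc_zero {m : ℕ} (x : {x : SS (m + 1) // -1 < x.1 0}) : hc (x, 0) = x.1 :=
  nrm_of_mem _ _ _ _ (by simp)

/-- base point -/
noncomputable def bp (m : ℕ) : SS (m + 1) := ⟨e0 m, by simp [norm_e0]⟩

theorem hc_one {m : ℕ} (x : {x : SS (m + 1) // -1 < x.1 0}) : hc (x, 1) = bp m :=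
  nrm_of_mem _ _ _ _ (by simp [bp])

theorem hc_base {m : ℕ} (x : {x : SS (m + 1) // -1 < x.1 0}) (t : unitInterval)
    (h : x.1 = bp m) : hc (x, t) = bp m :=
  nrm_of_mem _ _ _ _ (by
    rw [h]
    simp only [bp]
    rw [← add_smul]; simp)

theorem hc_zeroth {m : ℕ} (x : {x : SS (m + 1) // -1 < x.1 0}) (t : unitInterval) :
    ∃ v : EuclideanSpace ℝ (Fin (m + 1)), v = (1 - (t : ℝ)) • x.1.1 + (t : ℝ) • e0 m ∧
      0 < ‖v‖ ∧ v 0 = (1 - (t : ℝ)) * x.1.1 0 + t ∧
      (∀ i : Fin m, v i.succ = (1 - (t : ℝ)) * x.1.1 i.succ) ∧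
      (hc (x, t)).1 0 = ‖v‖⁻¹ * v 0 := by
  refine ⟨_, rfl, norm_pos_iff.mpr (comb_ne x.1 x.2 t), ?_, ?_, ?_⟩
  · simp [e0_zero]
  · intro i; simp [e0_succ]
  · simp [hc, nrm]
    ring

theorem hc_pos {m : ℕ} (x : {x : SS (m + 1) // -1 < x.1 0}) (t : unitInterval)
    (hx : 0 < x.1.1 0) : 0 < (hc (x, t)).1 0 := by
  obtain ⟨v, hv, hn, h0, hs, he⟩ := hc_zeroth x t
  rw [he, h0]
  have ht0 := t.2.1
  have ht1 := t.2.2
  have h1 : 0 < (1 - (t : ℝ)) * x.1.1 0 + t := by
    by_cases h : (t : ℝ) = 0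
    · rw [h]; linarith
    · have : 0 < (t : ℝ) := lt_of_le_of_ne ht0 (Ne.symm h)
      have := mul_nonneg (sub_nonneg.mpr ht1) hx.le
      linarith
  positivity

theorem hc_gt {m : ℕ} (x : {x : SS (m + 1) // -1 < x.1 0}) (t : unitInterval) :
    -1 < (hc (x, t)).1 0 := by
  obtain ⟨v, hv, hn, h0, hs, he⟩ := hc_zeroth x t
  have ht0 := t.2.1
  have ht1 := t.2.2
  rw [he]
  by_contra hcon
  push Not at hcon
  have h1 : v 0 ≤ -‖v‖ := by
    have := mul_le_mul_of_nonneg_left hcon hn.le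
    rw [mul_inv_cancel_left₀ hn.ne'] at this
    linarith
  have h2 : v 0 ^ 2 + ∑ i : Fin m, v i.succ ^ 2 = ‖v‖ ^ 2 := by
    rw [sq_sum, Fin.sum_univ_succ]
  have h3 : ‖v‖ ^ 2 ≤ v 0 ^ 2 := by nlinarith
  have h4 : 0 ≤ ∑ i : Fin m, v i.succ ^ 2 := Finset.sum_nonneg fun i _ => sq_nonneg _
  have h5 : ∑ i : Fin m, v i.succ ^ 2 = 0 := by linarith
  rw [Finset.sum_eq_zero_iff_of_nonneg (fun i _ => sq_nonneg _)] at h5
  have h6 : ∀ i : Fin m, (1 - (t : ℝ)) * x.1.1 i.succ = 0 := fun i => by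
    rw [← hs]; exact pow_eq_zero_iff two_ne_zero |>.mp (h5 i (Finset.mem_univ i))
  by_cases h7 : 1 - (t : ℝ) = 0
  · rw [h7] at h0
    linarith
  · have h8 : ∀ i : Fin m, x.1.1 i.succ = 0 := fun i => (mul_eq_zero.mp (h6 i)).resolve_left h7
    have h9 := SS_sq x.1
    rw [Fin.sum_univ_succ] at h9
    simp only [h8] at h9
    have h10 : x.1.1 0 ^ 2 = 1 := by simpa using h9
    have h11 : x.1.1 0 = 1 := by
      have hh := x.2
      have : (x.1.1 0 - 1) * (x.1.1 0 + 1) = 0 := by ring_nf; linarith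
      rcases mul_eq_zero.mp this with h | h
      · linarith
      · linarith
    rw [h11] at h0
    linarith

/-- a set with a deformation to a point inside a space is contractible -/
theorem Ctr_of_set {X : Type u} [TopologicalSpace X] (S : Set X) (x0 : S)
    (H : S × unitInterval → X) (hH : Continuous H) (hS : ∀ p, H p ∈ S)
    (h0 : ∀ x : S, H (x, 0) = x.1) (h1 : ∀ x : S, H (x, 1) = x0.1) : Ctr S :=
  ⟨x0, ⟨fun p => ⟨H p, hS p⟩, hH.subtype_mk hS⟩, fun x => Subtype.ext (h0 x),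
    fun x => Subtype.ext (h1 x)⟩

theorem bp_zero (m : ℕ) : (bp m).1 0 = 1 := e0_zero m

theorem Ctr_U (m : ℕ) : Ctr {x : SS (m + 1) | -1 < x.1 0} := by
  refine Ctr_of_set _ ⟨bp m, by simp [bp_zero]⟩ (fun p => hc (⟨p.1.1, p.1.2⟩, p.2)) ?_ ?_ ?_ ?_
  · exact continuous_hc
  · intro p; exact hc_gt _ _
  · intro x; exact hc_zero _
  · intro x; exact hc_one _

theorem Ctr_V (m : ℕ) : Ctr {x : SS (m + 1) | x.1 0 < 1} := by
  have hneg : ∀ x : SS (m + 1), (-x).1 0 = - x.1 0 := fun x => rfl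
  refine Ctr_of_set _ ⟨-bp m, by
    change (-bp m).1 0 < 1
    rw [hneg, bp_zero]; norm_num⟩ (fun p => -hc (⟨-p.1.1, by
    have := p.1.2
    change -1 < (-p.1.1).1 0
    rw [hneg]
    have h2 : p.1.1.1 0 < 1 := this
    linarith⟩, p.2)) ?_ ?_ ?_ ?_
  · apply Continuous.neg
    apply continuous_hc.comp
    apply Continuous.prodMk _ continuous_snd
    apply Continuous.subtype_mk
    exact (continuous_subtype_val.comp continuous_fst).neg
  · intro p
    change (-hc _).1 0 < 1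
    rw [hneg]
    have := hc_gt ⟨-p.1.1, by
      have := p.1.2
      change -1 < (-p.1.1).1 0
      rw [hneg]
      have h2 : p.1.1.1 0 < 1 := this
      linarith⟩ p.2
    linarith
  · intro x
    rw [hc_zero]; simp
  · intro x
    rw [hc_one]

/-- tail -/
noncomputable def tl {m : ℕ} (x : EuclideanSpace ℝ (Fin (m + 1))) : EuclideanSpace ℝ (Fin m) :=
  WithLp.toLp 2 fun i => x i.succ

theorem continuous_tl {m : ℕ} : Continuous (tl (m := m)) := by
  unfold tl
  fun_prop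

/-- cons -/
noncomputable def cs {m : ℕ} (a : ℝ) (y : EuclideanSpace ℝ (Fin m)) :
    EuclideanSpace ℝ (Fin (m + 1)) :=
  WithLp.toLp 2 (Fin.cons (α := fun _ => ℝ) a fun i => y i)

theorem cs_zero {m : ℕ} (a : ℝ) (y : EuclideanSpace ℝ (Fin m)) : cs a y 0 = a := rfl

theorem cs_succ {m : ℕ} (a : ℝ) (y : EuclideanSpace ℝ (Fin m)) (i : Fin m) :
    cs a y i.succ = y i := rfl

theorem tl_apply {m : ℕ} (x : EuclideanSpace ℝ (Fin (m + 1))) (i : Fin m) :
    tl x i = x i.succ := rfl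

theorem continuous_cs {m : ℕ} :
    Continuous (fun p : ℝ × EuclideanSpace ℝ (Fin m) => cs p.1 p.2) := by
  unfold cs
  apply (PiLp.continuous_toLp 2 _).comp
  apply continuous_pi
  intro i
  refine Fin.cases ?_ (fun i => ?_) i
  · exact continuous_fst
  · simp only [Fin.cons_succ]
    fun_prop

theorem ext_cs {m : ℕ} {x y : EuclideanSpace ℝ (Fin (m + 1))} (h0 : x 0 = y 0)
    (hs : ∀ i : Fin m, x i.succ = y i.succ) : x = y := by
  ext i
  refine Fin.cases h0 (fun i => hs i) i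

theorem sq_cs {m : ℕ} (a : ℝ) (y : EuclideanSpace ℝ (Fin m)) :
    ‖cs a y‖ ^ 2 = a ^ 2 + ‖y‖ ^ 2 := by
  rw [sq_sum, sq_sum, Fin.sum_univ_succ]
  rfl

theorem norm_cs_zero {m : ℕ} (y : EuclideanSpace ℝ (Fin m)) : ‖cs 0 y‖ = ‖y‖ := by
  have := sq_cs 0 y
  rw [zero_pow two_ne_zero, zero_add] at this
  exact (pow_left_inj₀ (norm_nonneg _) (norm_nonneg _) two_ne_zero).mp this

theorem tl_ne {m : ℕ} (x : SS (m + 1)) (h1 : -1 < x.1 0) (h2 : x.1 0 < 1) : tl x.1 ≠ 0 := by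
  intro h
  have h3 := SS_sq x
  rw [Fin.sum_univ_succ] at h3
  have h4 : ∀ i : Fin m, x.1 i.succ = 0 := fun i => by
    rw [← tl_apply, h]; rfl
  simp only [h4] at h3
  have h5 : x.1 0 ^ 2 = 1 := by simpa using h3
  nlinarith

theorem cs_ne {m : ℕ} (a : ℝ) (y : EuclideanSpace ℝ (Fin m)) (h : y ≠ 0) : cs a y ≠ 0 := by
  intro h0
  apply h
  ext i
  rw [← cs_succ a y i, h0]; rfl

/-- the sphere minus two points is equivalent to the equator -/
theorem TF_mid (m n : ℕ) (h : TF (SS m) n) :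
    TF ↥({x : SS (m + 1) | -1 < x.1 0} ∩ {x : SS (m + 1) | x.1 0 < 1}) n := by
  let W : Set (SS (m + 1)) := {x : SS (m + 1) | -1 < x.1 0} ∩ {x : SS (m + 1) | x.1 0 < 1}
  change TF W n
  have hW : ∀ x : W, tl x.1.1 ≠ 0 := fun x => tl_ne x.1 x.2.1 x.2.2
  let f : C(W, SS m) := ⟨nrm (fun x : W => tl x.1.1) hW, by
    apply continuous_nrm
    exact continuous_tl.comp (continuous_subtype_val.comp continuous_subtype_val)⟩
  have hg : ∀ y : SS m, ‖cs 0 y.1‖ = 1 := fun y => by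
    rw [norm_cs_zero]; simpa using y.2
  let g : C(SS m, W) := ⟨fun y => ⟨⟨cs 0 y.1, by simpa using hg y⟩, by
    constructor
    · change -1 < cs 0 y.1 0
      rw [cs_zero]; norm_num
    · change cs 0 y.1 0 < 1
      rw [cs_zero]; norm_num⟩, by
    apply Continuous.subtype_mk
    apply Continuous.subtype_mk
    exact continuous_cs.comp (continuous_const.prodMk continuous_subtype_val)⟩
  have hne : ∀ p : W × unitInterval, cs ((1 - (p.2 : ℝ)) * p.1.1.1 0) (tl p.1.1.1) ≠ 0 :=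
    fun p => cs_ne _ _ (hW p.1)
  let Hf : W × unitInterval → SS (m + 1) :=
    nrm (fun p : W × unitInterval => cs ((1 - (p.2 : ℝ)) * p.1.1.1 0) (tl p.1.1.1)) hne
  have hHf : Continuous Hf := by
    apply continuous_nrm
    refine continuous_cs.comp
      (f := fun p : W × unitInterval => ((1 - (p.2 : ℝ)) * p.1.1.1 0, tl p.1.1.1)) ?_
    apply Continuous.prodMk
    · fun_prop
    · exact continuous_tl.comp (continuous_subtype_val.comp
        (continuous_subtype_val.comp continuous_fst))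
  have hmem : ∀ p, Hf p ∈ W := by
    intro p
    have e1 : (Hf p).1 0 = ‖cs ((1 - (p.2 : ℝ)) * p.1.1.1 0) (tl p.1.1.1)‖⁻¹ *
        ((1 - (p.2 : ℝ)) * p.1.1.1 0) := by
      change (‖cs ((1 - (p.2 : ℝ)) * p.1.1.1 0) (tl p.1.1.1)‖⁻¹ •
        cs ((1 - (p.2 : ℝ)) * p.1.1.1 0) (tl p.1.1.1)) 0 = _
      simp [cs_zero]
    have hpos := norm_pos_iff.mpr (hne p)
    set a := (1 - (p.2 : ℝ)) * p.1.1.1 0 with ha
    set v := tl p.1.1.1 with hv
    have hvp : 0 < ‖v‖ := norm_pos_iff.mpr (hW p.1)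
    have e2 := sq_cs a v
    have e3 : |a| < ‖cs a v‖ := by
      apply abs_lt_of_sq_lt_sq _ hpos.le
      rw [e2]
      have : 0 < ‖v‖ ^ 2 := by positivity
      linarith
    rw [abs_lt] at e3
    constructor
    · change -1 < (Hf p).1 0
      rw [e1, inv_mul_eq_div, lt_div_iff₀ hpos]
      linarith
    · change (Hf p).1 0 < 1
      rw [e1, inv_mul_eq_div, div_lt_iff₀ hpos]
      linarith
  let H : C(W × unitInterval, W) := ⟨fun p => ⟨Hf p, hmem p⟩, hHf.subtype_mk hmem⟩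
  apply TF_of_HE (f := f) _ n h
  refine HE_of_homotopyEquiv f g H ⟨Prod.fst, continuous_fst⟩ ?_ ?_ (fun _ => rfl) ?_
  · intro x
    apply Subtype.ext
    refine nrm_of_mem _ hne (x, 0) x.1 ?_
    apply ext_cs
    · rw [cs_zero]; simp
    · intro i
      rw [cs_succ, tl_apply]
  · intro x
    apply Subtype.ext
    apply Subtype.ext
    change ‖cs ((1 - ((1 : unitInterval) : ℝ)) * x.1.1 0) (tl x.1.1)‖⁻¹ •
        cs ((1 - ((1 : unitInterval) : ℝ)) * x.1.1 0) (tl x.1.1) =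
      cs 0 (‖tl x.1.1‖⁻¹ • tl x.1.1)
    have : (1 - ((1 : unitInterval) : ℝ)) * x.1.1 0 = 0 := by simp
    rw [this, norm_cs_zero]
    apply ext_cs
    · simp [cs_zero]
    · intro i
      simp [cs_succ]
  · intro y
    apply Eq.symm
    refine nrm_of_mem _ hW (g y) y ?_
    ext i
    rfl

theorem TF_empty (X : Type u) [TopologicalSpace X] [IsEmpty X] (n : ℕ) : TF X n := by
  intro z _ _
  have : IsEmpty (Sing X n) := ⟨fun σ => IsEmpty.false (σ (Sc.vert n 0))⟩
  rw [Subsingleton.elim z 0]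
  exact Submodule.zero_mem _

theorem TF_SS : ∀ m n : ℕ, TF (SS m) n := by
  intro m
  induction m with
  | zero =>
    intro n
    have : IsEmpty (SS 0) := ⟨fun x => by
      have h := SS_sq x
      simp at h⟩
    exact TF_empty _ n
  | succ m ih =>
    intro n
    cases n with
    | zero => exact TF_zero _
    | succ n =>
      refine TF_of_cover_ctr {x : SS (m + 1) | -1 < x.1 0} {x : SS (m + 1) | x.1 0 < 1}
        ?_ ?_ ?_ (Ctr_U m) (Ctr_V m) n (TF_mid m n (ih n))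
      · exact isOpen_lt continuous_const (by fun_prop)
      · exact isOpen_lt (by fun_prop) continuous_const
      · intro x
        rcases lt_or_ge (-1) (x.1 0) with h | h
        · exact Or.inl h
        · right
          change x.1 0 < 1
          linarith

end Pool.Agent.H129.LN
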