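import Pool.Agent.H129.LN.P4b

/-! A kernel-checkable verifier for sequences of reduction moves on graphs given by bit rows. -/

set_option autoImplicit false

namespace Pool.Agent.H129.LN

open Pool.Agent.Helper534.HB Finsupp

/-- adjacency given by bit rows -/
def EE (N : ℕ) (A : List ℕ) : Fin N → Fin N → Prop := fun i j => (A.getD i 0).testBit j = true

/-- set of vertices given by a bit mask -/
def WW (N : ℕ) (w : ℕ) : Fin N → Prop := fun i => w.testBit i = true

/-- the moves: fold, add an edge, remove an edge, path move -/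
inductive Op
  | F (v w : ℕ)
  | A (u v w : ℕ)
  | R (u v w : ℕ)
  | P (v1 w1 w2 v2 : ℕ)

/-- rows of `B` are obtained from rows of `A` by `f` -/
def rowsEq (f : ℕ → ℕ → ℕ) : ℕ → List ℕ → List ℕ → Bool
  | _, [], [] => true
  | i, a :: as, b :: bs => Nat.beq (f i a) b && rowsEq f (i + 1) as bs
  | _, _, _ => false

theorem rowsEq_getD (f : ℕ → ℕ → ℕ) : ∀ (A B : List ℕ) (k : ℕ), rowsEq f k A B = true →
    B.length = A.length ∧ ∀ i, i < A.length → B.getD i 0 = f (k + i) (A.getD i 0) := by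
  intro A
  induction A with
  | nil =>
    intro B k h
    cases B with
    | nil => exact ⟨rfl, fun i hi => absurd hi (Nat.not_lt_zero _)⟩
    | cons b bs => simp [rowsEq] at h
  | cons a as ih =>
    intro B k h
    cases B with
    | nil => simp [rowsEq] at h
    | cons b bs =>
      rw [rowsEq, Bool.and_eq_true] at h
      obtain ⟨h1, h2⟩ := h
      obtain ⟨h3, h4⟩ := ih bs (k + 1) h2
      refine ⟨by simp [h3], ?_⟩
      intro i hi
      cases i with
      | zero => simpa using (Nat.eq_of_beq_eq_true h1).symm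
      | succ i =>
        have := h4 i (by simpa using hi)
        simp only [List.getD_cons_succ]
        rw [this]
        congr 1
        omega

/-- check of adding the edge `uv` with apex `w` -/
def checkAdd (N W : ℕ) (A B : List ℕ) (u v w : ℕ) : Bool :=
  (Nat.blt u N && Nat.blt v N && Nat.blt w N && !Nat.beq u v && !Nat.beq u w && !Nat.beq v w) &&
  (W.testBit w && !(A.getD u 0).testBit w && !(A.getD v 0).testBit w &&
    !(A.getD u 0).testBit v && !(A.getD v 0).testBit u) &&
  Nat.beq (Nat.land (Nat.land (A.getD w 0) W) (Nat.lor (A.getD u 0) (A.getD v 0)))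
    (Nat.land (A.getD w 0) W) &&
  rowsEq (fun i a => bif Nat.beq i u then Nat.lor a (2 ^ v) else
    bif Nat.beq i v then Nat.lor a (2 ^ u) else a) 0 A B

/-- check of a move -/
def check (N : ℕ) (s : ℕ × List ℕ) (s' : ℕ × List ℕ) : Op → Bool
  | Op.F v w => (Nat.blt v N && Nat.blt w N && !Nat.beq v w) &&
      (s.1.testBit w && !(s.2.getD v 0).testBit w && Nat.beq (Nat.lor s'.1 (2 ^ v)) s.1 &&
        !s'.1.testBit v) &&
      Nat.beq (Nat.land (Nat.land (s.2.getD w 0) s.1) (s.2.getD v 0))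
        (Nat.land (s.2.getD w 0) s.1) && rowsEq (fun _ a => a) 0 s.2 s'.2
  | Op.A u v w => Nat.beq s.1 s'.1 && checkAdd N s.1 s.2 s'.2 u v w
  | Op.R u v w => Nat.beq s.1 s'.1 && checkAdd N s.1 s'.2 s.2 u v w
  | Op.P v1 w1 w2 v2 =>
      (Nat.blt v1 N && Nat.blt v2 N && Nat.blt w1 N && Nat.blt w2 N && !Nat.beq v1 v2 &&
        !Nat.beq v1 w1 && !Nat.beq v1 w2 && !Nat.beq v2 w1 && !Nat.beq v2 w2 && !Nat.beq w1 w2) &&
      (s.1.testBit v1 && s.1.testBit v2 && s.1.testBit w1 && s.1.testBit w2) &&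
      ((s.2.getD w1 0).testBit w2 && (s.2.getD v1 0).testBit w1 && (s.2.getD w2 0).testBit v2 &&
        !(s.2.getD v2 0).testBit v2) &&
      (Nat.beq (Nat.land (s.2.getD w1 0) s.1) (Nat.lor (2 ^ w2) (2 ^ v1)) &&
        Nat.beq (Nat.land (s.2.getD w2 0) s.1) (Nat.lor (2 ^ w1) (2 ^ v2))) &&
      (Nat.beq (Nat.lor (Nat.lor (Nat.lor s'.1 (2 ^ w1)) (2 ^ w2)) (2 ^ v2)) s.1 &&
        !s'.1.testBit w1 && !s'.1.testBit w2 && !s'.1.testBit v2) &&
      rowsEq (fun i a => bif Nat.beq i v1 then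
          Nat.lor (bif a.testBit v2 then Nat.lor a (2 ^ v1) else a) (s.2.getD v2 0) else
          (bif a.testBit v2 then Nat.lor a (2 ^ v1) else a)) 0 s.2 s'.2

/-- symmetric table of the right length -/
def Sym (N : ℕ) (A : List ℕ) : Prop := A.length = N ∧ ∀ i j : Fin N, EE N A i j → EE N A j i

theorem land_eq (a b : ℕ) : Nat.land a b = a &&& b := rfl

theorem lor_eq (a b : ℕ) : Nat.lor a b = a ||| b := rfl

theorem beq_false' {a b : ℕ} (h : a ≠ b) : Nat.beq a b = false := by
  cases hb : Nat.beq a b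
  · rfl
  · exact absurd (Nat.eq_of_beq_eq_true hb) h

theorem pow_bit (v j : ℕ) : (2 ^ v).testBit j = true ↔ v = j := by
  rw [Nat.testBit_two_pow]; simp

theorem checkAdd_sound (N W : ℕ) (A B : List ℕ) (u v w : ℕ)
    (h : checkAdd N W A B u v w = true) :
    (A.length = N → B.length = N) ∧ (B.length = N → A.length = N) ∧
    (A.length = N → (∀ i j : Fin N, EE N A i j → EE N A j i) →
      (∀ i j : Fin N, EE N B i j → EE N B j i) ∧
      ∀ n, TF (R (IP (EE N B) (WW N W))) n ↔ TF (R (IP (EE N A) (WW N W))) n) ∧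
    (A.length = N → (∀ i j : Fin N, EE N B i j → EE N B j i) →
      (∀ i j : Fin N, EE N A i j → EE N A j i)) := by
  unfold checkAdd at h
  simp only [Bool.and_eq_true, Bool.not_eq_true', land_eq, lor_eq] at h
  obtain ⟨⟨⟨⟨⟨⟨⟨⟨hu, hv⟩, hw⟩, huv⟩, huw⟩, hvw⟩, ⟨⟨⟨⟨hWw, huw'⟩, hvw'⟩, huv'⟩, hvu'⟩⟩, hN⟩, hrows⟩ := h
  have hu : u < N := Nat.blt_eq.mp hu
  have hv : v < N := Nat.blt_eq.mp hv
  have hw : w < N := Nat.blt_eq.mp hw
  have huv : u ≠ v := Nat.ne_of_beq_eq_false huv
  have huw : u ≠ w := Nat.ne_of_beq_eq_false huw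
  have hvw : v ≠ w := Nat.ne_of_beq_eq_false hvw
  have hN := Nat.eq_of_beq_eq_true hN
  obtain ⟨hlen, hget⟩ := rowsEq_getD _ _ _ _ hrows
  have hB : A.length = N → ∀ i j : Fin N, EE N B i j ↔ EE N A i j ∨
      (i = ⟨u, hu⟩ ∧ j = ⟨v, hv⟩) ∨ (i = ⟨v, hv⟩ ∧ j = ⟨u, hu⟩) := by
    intro hA i j
    unfold EE
    rw [hget i (hA ▸ i.2), zero_add]
    simp only [Fin.ext_iff]
    by_cases h1 : (i : ℕ) = u
    · rw [h1]
      have : (Nat.beq u u) = true := Nat.beq_refl u
      simp only [this, cond_true]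
      rw [Nat.testBit_or, Bool.or_eq_true, pow_bit]
      constructor
      · rintro (h | h)
        · exact Or.inl h
        · exact Or.inr (Or.inl ⟨trivial, h.symm⟩)
      · rintro (h | ⟨_, h⟩ | ⟨h, _⟩)
        · exact Or.inl h
        · exact Or.inr h.symm
        · exact absurd h huv
    · have e1 : Nat.beq i u = false := beq_false' h1
      simp only [e1, cond_false]
      by_cases h2 : (i : ℕ) = v
      · rw [h2]
        have : (Nat.beq v v) = true := Nat.beq_refl v
        simp only [this, cond_true]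
        rw [Nat.testBit_or, Bool.or_eq_true, pow_bit]
        constructor
        · rintro (h | h)
          · exact Or.inl h
          · exact Or.inr (Or.inr ⟨trivial, h.symm⟩)
        · rintro (h | ⟨h, _⟩ | ⟨_, h⟩)
          · exact Or.inl h
          · exact absurd h.symm huv
          · exact Or.inr h.symm
      · have e2 : Nat.beq i v = false := beq_false' h2
        simp only [e2, cond_false]
        constructor
        · exact Or.inl
        · rintro (h | ⟨h, _⟩ | ⟨h, _⟩)
          · exact h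
          · exact absurd h h1
          · exact absurd h h2
  refine ⟨fun h => hlen.trans h, fun h => hlen.symm.trans h, ?_, ?_⟩
  · intro hA symm
    refine ⟨?_, ?_⟩
    · intro i j hij
      rw [hB hA] at hij ⊢
      rcases hij with h | ⟨h1, h2⟩ | ⟨h1, h2⟩
      · exact Or.inl (symm _ _ h)
      · exact Or.inr (Or.inr ⟨h2, h1⟩)
      · exact Or.inr (Or.inl ⟨h2, h1⟩)
    · intro n
      refine edge_step (EE N A) (EE N B) (WW N W) symm ⟨u, hu⟩ ⟨v, hv⟩ ⟨w, hw⟩ hWw
        (fun e => huw (Fin.mk.inj_iff.mp e)) (fun e => hvw (Fin.mk.inj_iff.mp e)) ?_ ?_ ?_ (hB hA) n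
      · intro h
        exact absurd (h.symm.trans huw') (by decide)
      · intro h
        exact absurd (h.symm.trans hvw') (by decide)
      · intro s hs hws
        have h1 : (A.getD w 0 &&& W).testBit s = true := by
          rw [Nat.testBit_and, Bool.and_eq_true]
          exact ⟨hws, hs⟩
        rw [← hN, Nat.testBit_and, Bool.and_eq_true, Nat.testBit_or, Bool.or_eq_true] at h1
        exact h1.2
  · intro hA symm i j hij
    have h1 := (hB hA j i).mp (symm i j ((hB hA i j).mpr (Or.inl hij)))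
    rcases h1 with h1 | ⟨h1, h2⟩ | ⟨h1, h2⟩
    · exact h1
    · -- j = u, i = v
      rw [h1, h2] at hij
      exact absurd (hij.symm.trans hvu') (by decide)
    · rw [h1, h2] at hij
      exact absurd (hij.symm.trans huv') (by decide)

/-- number of path moves -/
def Op.deg : Op → ℕ
  | Op.P _ _ _ _ => 1
  | _ => 0

theorem check_sound (N : ℕ) (s s' : ℕ × List ℕ) (op : Op) (h : check N s s' op = true)
    (hs : Sym N s.2) : Sym N s'.2 ∧ ∀ n, ¬ TF (R (IP (EE N s'.2) (WW N s'.1))) (n + 1) →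
      ¬ TF (R (IP (EE N s.2) (WW N s.1))) (n + 1 + op.deg) := by
  obtain ⟨hlen, symm⟩ := hs
  cases op with
  | F v w =>
    unfold check at h
    simp only [Bool.and_eq_true, Bool.not_eq_true', land_eq, lor_eq] at h
    obtain ⟨⟨⟨⟨⟨hv, hw⟩, hvw⟩, ⟨⟨⟨hWw, hvw'⟩, hW⟩, hW'⟩⟩, hN⟩, hrows⟩ := h
    have hv : v < N := Nat.blt_eq.mp hv
    have hw : w < N := Nat.blt_eq.mp hw
    have hvw : v ≠ w := Nat.ne_of_beq_eq_false hvw
    have hN := Nat.eq_of_beq_eq_true hN
    have hW := Nat.eq_of_beq_eq_true hW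
    obtain ⟨hlen', hget⟩ := rowsEq_getD _ _ _ _ hrows
    have hB : EE N s'.2 = EE N s.2 := by
      funext i j
      unfold EE
      rw [hget i (hlen ▸ i.2)]
    rw [Sym, hB]
    refine ⟨⟨hlen'.trans hlen, symm⟩, ?_⟩
    intro n hn
    rw [show (Op.F v w).deg = 0 from rfl, add_zero, ← fold_step (EE N s.2) (WW N s.1) (WW N s'.1) symm ⟨v, hv⟩ ⟨w, hw⟩ hWw
      (fun e => hvw (Fin.mk.inj_iff.mp e))]
    · exact hn
    · intro h
      exact absurd (h.symm.trans hvw') (by decide)
    · intro t ht hwt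
      have h1 : (s.2.getD w 0 &&& s.1).testBit t = true := by
        rw [Nat.testBit_and, Bool.and_eq_true]
        exact ⟨hwt, ht⟩
      rw [← hN, Nat.testBit_and, Bool.and_eq_true] at h1
      exact h1.2
    · intro i
      unfold WW
      rw [← hW, Nat.testBit_or, Bool.or_eq_true, pow_bit, Ne, Fin.ext_iff]
      constructor
      · intro h
        refine ⟨Or.inl h, ?_⟩
        intro e
        rw [e] at h
        exact absurd (h.symm.trans hW') (by decide)
      · rintro ⟨h | h, h2⟩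
        · exact h
        · exact absurd h.symm h2
  | A u v w =>
    unfold check at h
    simp only [Bool.and_eq_true] at h
    have hW := Nat.eq_of_beq_eq_true h.1
    obtain ⟨c1, c2, c3, c4⟩ := checkAdd_sound _ _ _ _ _ _ _ h.2
    obtain ⟨c5, c6⟩ := c3 hlen symm
    refine ⟨⟨c1 hlen, c5⟩, ?_⟩
    intro n hn
    rw [show (Op.A u v w).deg = 0 from rfl, add_zero, ← c6, hW]
    exact hn
  | R u v w =>
    unfold check at h
    simp only [Bool.and_eq_true] at h
    have hW := Nat.eq_of_beq_eq_true h.1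
    obtain ⟨c1, c2, c3, c4⟩ := checkAdd_sound _ _ _ _ _ _ _ h.2
    have hl := c2 hlen
    have hs' := c4 hl symm
    refine ⟨⟨hl, hs'⟩, ?_⟩
    intro n hn
    obtain ⟨_, c6⟩ := c3 hl hs'
    rw [show (Op.R u v w).deg = 0 from rfl, add_zero, c6, hW]
    exact hn
  | P v1 w1 w2 v2 =>
    unfold check at h
    simp only [Bool.and_eq_true, Bool.not_eq_true', land_eq, lor_eq] at h
    obtain ⟨⟨⟨⟨⟨⟨⟨⟨⟨⟨⟨⟨⟨⟨hv1, hv2⟩, hw1⟩, hw2⟩, hv⟩, h11⟩, h12⟩, h21⟩, h22⟩, hww⟩,
      ⟨⟨⟨W1, W2⟩, W3⟩, W4⟩⟩, ⟨⟨⟨e1, e2⟩, e3⟩, hvv⟩⟩, ⟨N1, N2⟩⟩, ⟨⟨⟨hW, q1⟩, q2⟩, q3⟩⟩, hrows⟩ := h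
    have hv1 : v1 < N := Nat.blt_eq.mp hv1
    have hv2 : v2 < N := Nat.blt_eq.mp hv2
    have hw1 : w1 < N := Nat.blt_eq.mp hw1
    have hw2 : w2 < N := Nat.blt_eq.mp hw2
    have hv : v1 ≠ v2 := Nat.ne_of_beq_eq_false hv
    have h11 : v1 ≠ w1 := Nat.ne_of_beq_eq_false h11
    have h12 : v1 ≠ w2 := Nat.ne_of_beq_eq_false h12
    have h21 : v2 ≠ w1 := Nat.ne_of_beq_eq_false h21
    have h22 : v2 ≠ w2 := Nat.ne_of_beq_eq_false h22
    have hww : w1 ≠ w2 := Nat.ne_of_beq_eq_false hww
    have N1 := Nat.eq_of_beq_eq_true N1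
    have N2 := Nat.eq_of_beq_eq_true N2
    have hW := Nat.eq_of_beq_eq_true hW
    obtain ⟨hlen', hget⟩ := rowsEq_getD _ _ _ _ hrows
    have aux : ∀ (a j : ℕ), (bif a.testBit v2 then a ||| 2 ^ v1 else a).testBit j = true ↔
        a.testBit j = true ∨ (j = v1 ∧ a.testBit v2 = true) := by
      intro a j
      by_cases h1 : a.testBit v2 = true
      · rw [h1, cond_true, Nat.testBit_or, Bool.or_eq_true, pow_bit]
        constructor
        · rintro (h | h)
          · exact Or.inl h
          · exact Or.inr ⟨h.symm, rfl⟩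
        · rintro (h | ⟨h, _⟩)
          · exact Or.inl h
          · exact Or.inr h.symm
      · have h2 : a.testBit v2 = false := by simpa using h1
        rw [h2, cond_false]
        simp
    have hB : ∀ i j : Fin N, EE N s'.2 i j ↔ EE N s.2 i j ∨
        (i = ⟨v1, hv1⟩ ∧ EE N s.2 ⟨v2, hv2⟩ j) ∨ (j = ⟨v1, hv1⟩ ∧ EE N s.2 i ⟨v2, hv2⟩) := by
      intro i j
      unfold EE
      rw [hget i (hlen ▸ i.2), zero_add]
      simp only [Fin.ext_iff]
      by_cases h1 : (i : ℕ) = v1
      · have e1 : Nat.beq i v1 = true := by rw [h1]; exact Nat.beq_refl v1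
        simp only [e1, cond_true]
        rw [Nat.testBit_or, Bool.or_eq_true, aux]
        constructor
        · rintro ((h | h) | h)
          · exact Or.inl h
          · exact Or.inr (Or.inr h)
          · exact Or.inr (Or.inl ⟨h1, h⟩)
        · rintro (h | ⟨_, h⟩ | h)
          · exact Or.inl (Or.inl h)
          · exact Or.inr h
          · exact Or.inl (Or.inr h)
      · have e1 : Nat.beq i v1 = false := beq_false' h1
        simp only [e1, cond_false]
        rw [aux]
        constructor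
        · rintro (h | h)
          · exact Or.inl h
          · exact Or.inr (Or.inr h)
        · rintro (h | ⟨h, _⟩ | h)
          · exact Or.inl h
          · exact absurd h h1
          · exact Or.inr h
    have hW' : ∀ i : Fin N, WW N s'.1 i ↔ WW N s.1 i ∧ i ≠ ⟨w1, hw1⟩ ∧ i ≠ ⟨w2, hw2⟩ ∧
        i ≠ ⟨v2, hv2⟩ := by
      intro i
      unfold WW
      rw [← hW, Nat.testBit_or, Nat.testBit_or, Nat.testBit_or, Bool.or_eq_true, Bool.or_eq_true,
        Bool.or_eq_true, pow_bit, pow_bit, pow_bit, Ne, Ne, Ne, Fin.ext_iff, Fin.ext_iff,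
        Fin.ext_iff]
      constructor
      · intro h
        refine ⟨Or.inl (Or.inl (Or.inl h)), ?_, ?_, ?_⟩
        · intro e
          rw [e] at h
          exact absurd (h.symm.trans q1) (by decide)
        · intro e
          rw [e] at h
          exact absurd (h.symm.trans q2) (by decide)
        · intro e
          rw [e] at h
          exact absurd (h.symm.trans q3) (by decide)
      · rintro ⟨((h | h) | h) | h, k1, k2, k3⟩
        · exact h
        · exact absurd h.symm k1
        · exact absurd h.symm k2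
        · exact absurd h.symm k3
    refine ⟨⟨hlen'.trans hlen, ?_⟩, ?_⟩
    · intro i j hij
      rw [hB] at hij ⊢
      rcases hij with h | ⟨h1, h2⟩ | ⟨h1, h2⟩
      · exact Or.inl (symm _ _ h)
      · exact Or.inr (Or.inr ⟨h1, symm _ _ h2⟩)
      · exact Or.inr (Or.inl ⟨h1, symm _ _ h2⟩)
    · intro n hn
      refine p4_step (EE N s.2) (EE N s'.2) (WW N s.1) (WW N s'.1) symm ⟨v1, hv1⟩ ⟨v2, hv2⟩
        ⟨w1, hw1⟩ ⟨w2, hw2⟩ (fun e => hv (Fin.mk.inj_iff.mp e)) W1 W2 W3 W4
        (fun e => h11 (Fin.mk.inj_iff.mp e)) (fun e => h12 (Fin.mk.inj_iff.mp e))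
        (fun e => h21 (Fin.mk.inj_iff.mp e)) (fun e => h22 (Fin.mk.inj_iff.mp e))
        (fun e => hww (Fin.mk.inj_iff.mp e)) e1 e2 e3 ?_ ?_ ?_ n hB hW' hn
      · intro h
        exact absurd (h.symm.trans hvv) (by decide)
      · intro t ht hwt
        have h1 : (s.2.getD w1 0 &&& s.1).testBit t = true := by
          rw [Nat.testBit_and, Bool.and_eq_true]
          exact ⟨hwt, ht⟩
        rw [N1, Nat.testBit_or, Bool.or_eq_true, pow_bit, pow_bit] at h1
        rcases h1 with h | h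
        · exact Or.inl (Fin.ext h.symm)
        · exact Or.inr (Fin.ext h.symm)
      · intro t ht hwt
        have h1 : (s.2.getD w2 0 &&& s.1).testBit t = true := by
          rw [Nat.testBit_and, Bool.and_eq_true]
          exact ⟨hwt, ht⟩
        rw [N2, Nat.testBit_or, Bool.or_eq_true, pow_bit, pow_bit] at h1
        rcases h1 with h | h
        · exact Or.inl (Fin.ext h.symm)
        · exact Or.inr (Fin.ext h.symm)

/-- check a whole list of moves -/
def run (N : ℕ) : (ℕ × List ℕ) → List (Op × (ℕ × List ℕ)) → Bool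
  | _, [] => true
  | s, t :: L => check N s t.2 t.1 && run N t.2 L

/-- last state -/
def lst : (ℕ × List ℕ) → List (Op × (ℕ × List ℕ)) → (ℕ × List ℕ)
  | s, [] => s
  | _, t :: L => lst t.2 L

/-- number of path moves -/
def dgs : List (Op × (ℕ × List ℕ)) → ℕ
  | [] => 0
  | t :: L => t.1.deg + dgs L

theorem run_sound (N : ℕ) : ∀ (L : List (Op × (ℕ × List ℕ))) (s : ℕ × List ℕ),
    run N s L = true → Sym N s.2 →
    Sym N (lst s L).2 ∧ ∀ n, ¬ TF (R (IP (EE N (lst s L).2) (WW N (lst s L).1))) (n + 1) →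
      ¬ TF (R (IP (EE N s.2) (WW N s.1))) (n + 1 + dgs L) := by
  intro L
  induction L with
  | nil => intro s _ hs; exact ⟨hs, fun n h => h⟩
  | cons t L ih =>
    intro s h hs
    rw [run, Bool.and_eq_true] at h
    obtain ⟨h1, h2⟩ := check_sound N s t.2 t.1 h.1 hs
    obtain ⟨h3, h4⟩ := ih t.2 h.2 h1
    refine ⟨h3, fun n hn => ?_⟩
    have h5 := h4 n hn
    have h6 := h2 (n + dgs L) (by rw [show n + dgs L + 1 = n + 1 + dgs L by omega]; exact h5)
    rw [dgs, show n + 1 + (t.1.deg + dgs L) = n + dgs L + 1 + t.1.deg by omega]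
    exact h6

end Pool.Agent.H129.LN
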