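import Pool.Graph.R_seed8.Helper534.HB.MV

/-! 2-torsion in integral singular homology: homotopy invariance and Mayer-Vietoris lemmas. -/

set_option autoImplicit false

namespace Pool.Agent.H129.LN

open Pool.Agent.Helper534.HB Finsupp

universe u v w

variable {X : Type u} [TopologicalSpace X] {Y : Type v} [TopologicalSpace Y]

/-- The integral singular homology of `X` in degree `n` has no 2-torsion. -/
def TF (X : Type u) [TopologicalSpace X] (n : ℕ) : Prop :=
  ∀ z ∈ Cyc X n, (2 : ℤ) • z ∈ Bdy X n → z ∈ Bdy X n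

/-- `X` is contractible: the identity is homotopic to a constant map. -/
def Ctr (X : Type u) [TopologicalSpace X] : Prop :=
  ∃ (x0 : X) (H : C(X × unitInterval, X)), (∀ x, H (x, 0) = x) ∧ ∀ x, H (x, 1) = x0

theorem alt_sum_one (n : ℕ) : (∑ i : Fin (n + 2), (-1 : ℤ) ^ (i : ℕ)) = if Even n then 0 else 1 := by
  rw [Fin.sum_univ_eq_sum_range (fun i => (-1 : ℤ) ^ i), Finset.sum_range_succ,
    Finset.sum_range_succ]
  induction n with
  | zero => simp
  | succ n ih =>
    rw [Finset.sum_range_succ]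
    rcases Nat.even_or_odd n with h | h
    · have h1 : ¬ Even (n + 1) := by rw [Nat.even_add_one]; simpa using h
      rw [if_pos h] at ih
      rw [if_neg h1, ih, pow_add, pow_add, h.neg_one_pow]
      norm_num
    · have h0 : ¬ Even n := by simpa using h
      have h1 : Even (n + 1) := by rw [Nat.even_add_one]; exact h0
      rw [if_neg h0] at ih
      rw [if_pos h1, ih, pow_add, pow_add, h.neg_one_pow]
      norm_num

/-- the constant singular simplex -/
noncomputable def cst (x : X) (n : ℕ) : Sing X n := ContinuousMap.const _ x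

theorem bdry_cst (x : X) (n : ℕ) (c : ℤ) :
    bdry X n (single (cst x (n + 1)) c) = single (cst x n) (if Even n then 0 else c) := by
  simp only [bdry, LinearMap.sum_apply, LinearMap.smul_apply, lmapDomain_apply, mapDomain_single]
  have h : ∀ i : Fin (n + 2), sface n i (cst x (n + 1)) = cst x n := fun i => by
    ext t; rfl
  simp only [h, smul_single, smul_eq_mul]
  rw [← Finsupp.single_finsetSum, ← Finset.sum_mul, alt_sum_one]
  split_ifs <;> simp

theorem push_const (x : X) (n : ℕ) (z : Sing X n →₀ ℤ) :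
    ∃ c, push (ContinuousMap.const X x) n z = single (cst x n) c := by
  refine ⟨z.sum fun _ a => a, ?_⟩
  simp only [push, lmapDomain_apply, mapDomain]
  rw [Finsupp.sum, Finsupp.sum, Finsupp.single_finsetSum]
  rfl

/-- positive dimensional cycles of a contractible space are boundaries -/
theorem Ctr.bdy (h : Ctr X) (n : ℕ) (z : Sing X (n + 1) →₀ ℤ) (hz : z ∈ Cyc X (n + 1)) :
    z ∈ Bdy X (n + 1) := by
  obtain ⟨x0, H, h0, h1⟩ := h
  have hd := push_sub_mem_of_homotopy H (ContinuousMap.id X) (ContinuousMap.const X x0)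
    (fun x => by rw [h0]; rfl) (fun x => by rw [h1]; rfl) (n + 1) z hz
  rw [push_id] at hd
  obtain ⟨c, hc⟩ := push_const x0 (n + 1) z
  have hcy : push (ContinuousMap.const X x0) (n + 1) z ∈ Cyc X (n + 1) := push_mem_Cyc _ _ _ hz
  have h2 : push (ContinuousMap.const X x0) (n + 1) z ∈ Bdy X (n + 1) := by
    rw [hc] at hcy ⊢
    have h3 : bdry X n (single (cst x0 (n + 1)) c) = 0 := hcy
    rw [bdry_cst] at h3
    by_cases he : Even n
    · refine ⟨single (cst x0 (n + 2)) c, ?_⟩
      have : ¬ Even (n + 1) := by rw [Nat.even_add_one]; simpa using he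
      rw [bdry_cst, if_neg this]
    · rw [if_neg he, single_eq_zero] at h3
      rw [h3, single_zero]
      exact Submodule.zero_mem _
  have := (Bdy X (n + 1)).sub_mem h2 hd
  simpa using this

theorem TF_of_HE {f : C(X, Y)} (h : HE f) (n : ℕ) (hY : TF Y n) : TF X n := by
  intro z hz h2
  apply (h n).1 z hz
  apply hY _ (push_mem_Cyc f n z hz)
  have := push_mem_Bdy f n _ h2
  rwa [map_smul] at this

theorem TF_of_HE' {f : C(X, Y)} (h : HE f) (n : ℕ) (hX : TF X n) : TF Y n := by
  intro b hb h2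
  obtain ⟨z, hz, h3⟩ := (h n).2 b hb
  have h4 : (2 : ℤ) • z ∈ Bdy X n := by
    apply (h n).1 _ ((Cyc X n).smul_mem _ hz)
    rw [map_smul]
    have := (Bdy Y n).sub_mem h2 ((Bdy Y n).smul_mem (2 : ℤ) h3)
    rwa [smul_sub, sub_sub_cancel] at this
  have h5 := push_mem_Bdy f n _ (hX z hz h4)
  have := (Bdy Y n).add_mem h3 h5
  simpa using this

theorem TF_iff_of_HE {f : C(X, Y)} (h : HE f) (n : ℕ) : TF X n ↔ TF Y n :=
  ⟨TF_of_HE' h n, TF_of_HE h n⟩

/-- If `X` is covered by two contractible open sets, torsion of the intersection in positive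
degree gives torsion of `X` in the next degree. -/
theorem not_TF_of_cover (U V : Set X) (hU : IsOpen U) (hV : IsOpen V) (hUV : ∀ x, x ∈ U ∨ x ∈ V)
    (cU : Ctr U) (cV : Ctr V) (n : ℕ) (h : ¬ TF ↥(U ∩ V) (n + 1)) : ¬ TF X (n + 2) := by
  intro hX
  apply h
  intro z hz h2
  obtain ⟨u, hu⟩ := cU.bdy n _ (push_mem_Cyc (inl U V) (n + 1) z hz)
  obtain ⟨v, hv⟩ := cV.bdy n _ (push_mem_Cyc (inr U V) (n + 1) z hz)
  have hv' : bdry V (n + 1) (-v) = - push (inr U V) (n + 1) z := by rw [map_neg, hv]
  have hZ : push (sub U) (n + 2) u + push (sub V) (n + 2) (-v) ∈ Cyc X (n + 2) := by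
    change bdry X (n + 1) _ = 0
    rw [map_add, bdry_push, bdry_push, hu, hv', map_neg, mvx_push_inl, mvx_push_inr,
      add_neg_cancel]
  refine mv_conn U V hU hV hUV (n + 1) u (-v) z hu hv' (hX _ hZ ?_)
  obtain ⟨c, hc⟩ := h2
  have h3 : (2 : ℤ) • u - push (inl U V) (n + 2) c ∈ Bdy U (n + 2) := by
    apply cU.bdy (n + 1)
    change bdry U (n + 1) _ = 0
    rw [map_sub, map_smul, hu, bdry_push, hc, map_smul, sub_self]
  have h4 : (2 : ℤ) • (-v) + push (inr U V) (n + 2) c ∈ Bdy V (n + 2) := by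
    apply cV.bdy (n + 1)
    change bdry V (n + 1) _ = 0
    rw [map_add, map_smul, hv', bdry_push, hc, map_smul, smul_neg, neg_add_cancel]
  have h5 := push_mem_Bdy (sub U) (n + 2) _ h3
  have h6 := push_mem_Bdy (sub V) (n + 2) _ h4
  have h7 := (Bdy X (n + 2)).add_mem h5 h6
  rw [map_sub, map_add, map_smul, map_smul, mvx_push_inl, mvx_push_inr] at h7
  rw [smul_add]
  convert h7 using 1
  abel

end Pool.Agent.H129.LN
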