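import Pool.Agent.H129.LN.TF

/-! Homology in degree zero. -/

set_option autoImplicit false

namespace Pool.Agent.H129.LN

open Pool.Agent.Helper534.HB Finsupp

universe u v w

variable {X : Type u} [TopologicalSpace X] {Y : Type v} [TopologicalSpace Y]

/-- the point of a singular `0`-simplex -/
noncomputable def pt (σ : Sing X 0) : X := σ (Sc.vert 0 0)

theorem cst_pt (σ : Sing X 0) : cst (pt σ) 0 = σ := by
  ext t
  have : t = Sc.vert 0 0 := Subsingleton.elim (α := stdSimplex ℝ (Fin 1)) _ _
  rw [this]; rfl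

theorem pt_cst (x : X) : pt (cst x 0) = x := rfl

theorem pt_face (τ : Sing X 1) (i : Fin 2) : pt (sface 0 i τ) = τ (Sc.vert 1 (i.succAbove 0)) := by
  rw [show sface 0 i τ = _ from Sc.sface_eq i τ]
  change τ (Sc.aff _ (Sc.vert 0 0)) = _
  rw [Sc.aff_vert]

theorem bdry_one (τ : Sing X 1) (c : ℤ) : bdry X 0 (single τ c) =
    single (cst (τ (Sc.vert 1 1)) 0) c - single (cst (τ (Sc.vert 1 0)) 0) c := by
  simp only [bdry, LinearMap.sum_apply, LinearMap.smul_apply, lmapDomain_apply, mapDomain_single]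
  refine (Fin.sum_univ_two (fun i : Fin 2 => ((-1 : ℤ) ^ (i : ℕ)) • single (sface 0 i τ) c)).trans ?_
  have h0 : sface 0 (0 : Fin 2) τ = cst (τ (Sc.vert 1 1)) 0 := by
    rw [← cst_pt (sface 0 (0 : Fin 2) τ), pt_face]; rfl
  have h1 : sface 0 (1 : Fin 2) τ = cst (τ (Sc.vert 1 0)) 0 := by
    rw [← cst_pt (sface 0 (1 : Fin 2) τ), pt_face]; rfl
  rw [h0, h1]
  simp [sub_eq_add_neg]

theorem joined_bdy {x y : X} (h : Joined x y) :
    single (cst y 0) (1 : ℤ) - single (cst x 0) 1 ∈ Bdy X 0 := by
  obtain ⟨γ⟩ := h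
  let τ : Sing X 1 := ⟨fun t => γ ⟨t.1 1, t.2.1 1, by
    have := t.2.2; rw [Fin.sum_univ_two] at this; linarith [t.2.1 0]⟩, by
      apply γ.continuous.comp
      apply Continuous.subtype_mk
      exact (continuous_apply 1).comp continuous_subtype_val⟩
  refine ⟨single τ 1, ?_⟩
  rw [bdry_one]
  have h1 : τ (Sc.vert 1 1) = y :=
    (congrArg γ (Subtype.ext (Sc.vert_self 1 1))).trans γ.target
  have h0 : τ (Sc.vert 1 0) = x :=
    (congrArg γ (Subtype.ext (Sc.vert_ne 1 0 1 (by decide)))).trans γ.source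
  rw [h1, h0]

theorem joined_of_simplex (τ : Sing X 1) : Joined (τ (Sc.vert 1 0)) (τ (Sc.vert 1 1)) := by
  have h : IsPathConnected (stdSimplex ℝ (Fin 2)) :=
    (convex_stdSimplex ℝ (Fin 2)).isPathConnected ⟨_, (Sc.vert 1 0).2⟩
  have h2 := h.joinedIn _ (Sc.vert 1 0).2 _ (Sc.vert 1 1).2
  have h3 := h2.joined_subtype
  exact h3.map τ.continuous

/-- the path component of a singular `0`-simplex -/
noncomputable def cmp (σ : Sing X 0) : ZerothHomotopy X := Quotient.mk _ (pt σ)

theorem cmp_eq_iff (σ τ : Sing X 0) : cmp σ = cmp τ ↔ Joined (pt σ) (pt τ) := by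
  constructor
  · intro h; exact Quotient.exact h
  · intro h; exact Quotient.sound h

theorem mem_Bdy_zero_iff (z : Sing X 0 →₀ ℤ) :
    z ∈ Bdy X 0 ↔ lmapDomain ℤ ℤ cmp z = 0 := by
  classical
  constructor
  · rintro ⟨w, rfl⟩
    have : (lmapDomain ℤ ℤ (cmp (X := X))).comp (bdry X 0) = 0 := by
      apply Finsupp.lhom_ext'
      intro τ
      apply LinearMap.ext_ring
      simp only [LinearMap.comp_apply, lsingle_apply, LinearMap.zero_apply]
      rw [bdry_one, map_sub]
      simp only [lmapDomain_apply, mapDomain_single]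
      rw [(cmp_eq_iff _ _).mpr, sub_self]
      exact (joined_of_simplex τ).symm
    exact LinearMap.congr_fun this w
  · intro h
    let r : ZerothHomotopy X → Sing X 0 := fun c => cst (Quotient.out c) 0
    have h1 : ∀ σ : Sing X 0, single σ (1 : ℤ) - single (r (cmp σ)) 1 ∈ Bdy X 0 := by
      intro σ
      have hj : Joined (Quotient.out (cmp σ)) (pt σ) := by
        exact Quotient.exact (Quotient.out_eq (cmp σ))
      have := joined_bdy hj
      rwa [cst_pt] at this
    have h2 : ∀ z : Sing X 0 →₀ ℤ, z - lmapDomain ℤ ℤ (fun σ => r (cmp σ)) z ∈ Bdy X 0 := by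
      intro z
      have h3 : ∀ a ∈ (Set.univ : Set (Sing X 0)),
          ((LinearMap.id : (Sing X 0 →₀ ℤ) →ₗ[ℤ] (Sing X 0 →₀ ℤ)) -
            lmapDomain ℤ ℤ (fun σ : Sing X 0 => r (cmp σ))) (single a 1)
            ∈ Bdy X 0 := by
        intro a _
        simp only [LinearMap.sub_apply, LinearMap.id_apply, lmapDomain_apply, mapDomain_single]
        exact h1 a
      have := Sc.supported_map Set.univ _ (Bdy X 0) h3 z (by simp)
      simpa using this
    have h4 := h2 z
    have h5 : lmapDomain ℤ ℤ (fun σ => r (cmp σ)) z = 0 := by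
      have : lmapDomain ℤ ℤ (fun σ : Sing X 0 => r (cmp σ)) z =
          lmapDomain ℤ ℤ r (lmapDomain ℤ ℤ cmp z) := by
        simp only [lmapDomain_apply]
        rw [← mapDomain_comp]; rfl
      rw [this, h, map_zero]
    rwa [h5, sub_zero] at h4

theorem TF_zero (X : Type u) [TopologicalSpace X] : TF X 0 := by
  intro z _ h2
  rw [mem_Bdy_zero_iff] at h2 ⊢
  rw [map_smul] at h2
  exact (smul_eq_zero.mp h2).resolve_left two_ne_zero

/-- the augmentation -/
noncomputable def aug : (Sing X 0 →₀ ℤ) →ₗ[ℤ] ℤ := linearCombination ℤ (fun _ => (1 : ℤ))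

theorem aug_bdry (w : Sing X 1 →₀ ℤ) : aug (bdry X 0 w) = 0 := by
  have : aug.comp (bdry X 0) = 0 := by
    apply Finsupp.lhom_ext'
    intro τ
    apply LinearMap.ext_ring
    simp only [LinearMap.comp_apply, lsingle_apply, LinearMap.zero_apply]
    rw [bdry_one, map_sub, aug, linearCombination_single, linearCombination_single, sub_self]
  exact LinearMap.congr_fun this w

theorem aug_push (f : C(X, Y)) (z : Sing X 0 →₀ ℤ) : aug (push f 0 z) = aug z := by
  have : aug.comp (push f 0) = aug := by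
    apply Finsupp.lhom_ext'
    intro τ
    apply LinearMap.ext_ring
    simp only [LinearMap.comp_apply, lsingle_apply]
    rw [push_single, aug, linearCombination_single, aug, linearCombination_single]
  exact LinearMap.congr_fun this z

theorem Ctr.joined (h : Ctr X) (x y : X) : Joined x y := by
  obtain ⟨x0, H, h0, h1⟩ := h
  have key : ∀ x, Joined x x0 := fun x => by
    refine ⟨⟨⟨fun t => H (x, t), by fun_prop⟩, ?_, ?_⟩⟩
    · exact h0 x
    · exact h1 x
  exact (key x).trans (key y).symm

/-- in a contractible space a `0`-chain of augmentation zero is a boundary -/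
theorem Ctr.bdy_zero (h : Ctr X) (z : Sing X 0 →₀ ℤ) (hz : aug z = 0) : z ∈ Bdy X 0 := by
  rw [mem_Bdy_zero_iff]
  have hs : ∀ a b : ZerothHomotopy X, a = b := by
    intro a b
    induction a using Quotient.inductionOn
    induction b using Quotient.inductionOn
    exact Quotient.sound (h.joined _ _)
  obtain ⟨x0, _⟩ := id h
  have key : ∀ z : Sing X 0 →₀ ℤ, lmapDomain ℤ ℤ cmp z = single (cmp (cst x0 0)) (aug z) := by
    intro z
    have : lmapDomain ℤ ℤ (cmp (X := X)) = (lsingle (cmp (cst x0 0))).comp aug := by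
      apply Finsupp.lhom_ext'
      intro τ
      apply LinearMap.ext_ring
      simp only [LinearMap.comp_apply, lsingle_apply, lmapDomain_apply, mapDomain_single]
      rw [aug, linearCombination_single, hs (cmp τ) (cmp (cst x0 0))]
      simp
    rw [this]; rfl
  rw [key, hz, single_zero]

end Pool.Agent.H129.LN
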